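import Mathlib
import Pool.Graph.R_seed8.Helper112.MultLS

/-!
# High moments of prime sums twisted by all primitive Dirichlet characters
-/

set_option autoImplicit false

open Finset

namespace Pool.Agent.H11.TC

/-- the coefficients of the k-th power of a sum over primes -/
noncomputable def cf (P : Finset ℕ) (k : ℕ) (z : ℕ → ℂ) (n : ℕ) : ℂ :=
  ∑ t ∈ (Fintype.piFinset (fun _ : Fin k => P)).filter (fun t => ∏ i, t i = n), ∏ i, z (t i)

theorem prod_mem {P : Finset ℕ} {M : ℕ} (hP : ∀ p ∈ P, p.Prime) (hM : ∀ p ∈ P, p ≤ M) {k : ℕ}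
    {t : Fin k → ℕ} (ht : t ∈ Fintype.piFinset (fun _ : Fin k => P)) :
    ∏ i, t i ∈ Icc 1 (M ^ k) := by
  rw [Fintype.mem_piFinset] at ht
  rw [mem_Icc]
  constructor
  · exact Finset.one_le_prod' (fun i _ => (hP _ (ht i)).one_lt.le)
  · calc ∏ i, t i ≤ ∏ _i : Fin k, M := Finset.prod_le_prod' (fun i _ => hM _ (ht i))
      _ = M ^ k := by simp

theorem pow_expand {P : Finset ℕ} {M : ℕ} (hP : ∀ p ∈ P, p.Prime) (hM : ∀ p ∈ P, p ≤ M) (k : ℕ)
    (z : ℕ → ℂ) (f : ℕ) (χ : DirichletCharacter ℂ f) :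
    (∑ p ∈ P, z p * χ (p : ZMod f)) ^ k =
      ∑ n ∈ Icc 1 (M ^ k), cf P k z n * χ (n : ZMod f) := by
  rw [Finset.sum_pow']
  rw [← Finset.sum_fiberwise_of_maps_to (g := fun d : Fin k → ℕ => ∏ i, d i)
    (fun d hd => prod_mem hP hM hd)]
  refine Finset.sum_congr rfl (fun n _ => ?_)
  rw [cf, Finset.sum_mul]
  refine Finset.sum_congr rfl (fun d hd => ?_)
  rw [Finset.mem_filter] at hd
  rw [Finset.prod_mul_distrib, ← hd.2, Nat.cast_prod, map_prod]

theorem card_fiber {P : Finset ℕ} (hP : ∀ p ∈ P, p.Prime) (k n : ℕ) :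
    ((Fintype.piFinset (fun _ : Fin k => P)).filter (fun t => ∏ i, t i = n)).card ≤ k ^ k := by
  classical
  by_cases hne : ((Fintype.piFinset (fun _ : Fin k => P)).filter (fun t => ∏ i, t i = n)).Nonempty
  · obtain ⟨t0, ht0⟩ := hne
    rw [mem_filter, Fintype.mem_piFinset] at ht0
    have hn0 : n ≠ 0 := by
      rw [← ht0.2]
      exact Finset.prod_ne_zero_iff.mpr fun i _ => (hP _ (ht0.1 i)).ne_zero
    have hcard : n.primeFactors.card ≤ k := by
      have : n.primeFactors ⊆ univ.image t0 := by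
        intro p hp
        have hpp := Nat.prime_of_mem_primeFactors hp
        have hd := Nat.dvd_of_mem_primeFactors hp
        rw [← ht0.2, hpp.prime.dvd_finsetProd_iff] at hd
        obtain ⟨i, -, hi⟩ := hd
        rw [mem_image]
        exact ⟨i, mem_univ _, ((Nat.prime_dvd_prime_iff_eq hpp (hP _ (ht0.1 i))).mp hi).symm⟩
      calc _ ≤ (univ.image t0).card := card_le_card this
        _ ≤ (univ : Finset (Fin k)).card := card_image_le
        _ = k := by simp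
    have hsub : (Fintype.piFinset (fun _ : Fin k => P)).filter (fun t => ∏ i, t i = n) ⊆
        Fintype.piFinset (fun _ : Fin k => n.primeFactors) := by
      intro t ht
      rw [mem_filter, Fintype.mem_piFinset] at ht
      rw [Fintype.mem_piFinset]
      intro i
      rw [Nat.mem_primeFactors]
      exact ⟨hP _ (ht.1 i), by rw [← ht.2]; exact dvd_prod_of_mem _ (mem_univ i), hn0⟩
    refine (card_le_card hsub).trans ?_
    rw [Fintype.card_piFinset]
    simp only [prod_const, card_univ, Fintype.card_fin]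
    exact Nat.pow_le_pow_left hcard k
  · rw [not_nonempty_iff_eq_empty] at hne
    rw [hne, card_empty]
    exact Nat.zero_le _

theorem sum_cf_sq {P : Finset ℕ} {M : ℕ} (hP : ∀ p ∈ P, p.Prime) (hM : ∀ p ∈ P, p ≤ M) (k : ℕ)
    (z : ℕ → ℂ) :
    ∑ n ∈ Icc 1 (M ^ k), ‖cf P k z n‖ ^ 2 ≤ (k : ℝ) ^ k * (∑ p ∈ P, ‖z p‖ ^ 2) ^ k := by
  classical
  have h1 : ∀ n ∈ Icc 1 (M ^ k), ‖cf P k z n‖ ^ 2 ≤ (k : ℝ) ^ k *
      ∑ d ∈ (Fintype.piFinset (fun _ : Fin k => P)).filter (fun d => ∏ i, d i = n),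
        ∏ i, ‖z (d i)‖ ^ 2 := by
    intro n _
    rw [cf]
    have h2 : ‖∑ t ∈ (Fintype.piFinset (fun _ : Fin k => P)).filter (fun t => ∏ i, t i = n),
        ∏ i, z (t i)‖ ^ 2 ≤ (∑ t ∈ (Fintype.piFinset (fun _ : Fin k => P)).filter
          (fun t => ∏ i, t i = n), ∏ i, ‖z (t i)‖) ^ 2 := by
      gcongr
      refine (norm_sum_le _ _).trans (sum_le_sum fun t _ => ?_)
      rw [norm_prod]
    refine h2.trans ?_
    refine sq_sum_le_card_mul_sum_sq.trans ?_
    have h3 : (((Fintype.piFinset (fun _ : Fin k => P)).filter (fun t => ∏ i, t i = n)).card : ℝ) ≤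
        (k : ℝ) ^ k := by exact_mod_cast card_fiber hP k n
    have h4 : ∑ t ∈ (Fintype.piFinset (fun _ : Fin k => P)).filter (fun t => ∏ i, t i = n),
        (∏ i, ‖z (t i)‖) ^ 2 = ∑ t ∈ (Fintype.piFinset (fun _ : Fin k => P)).filter
          (fun t => ∏ i, t i = n), ∏ i, ‖z (t i)‖ ^ 2 := by
      refine sum_congr rfl fun t _ => ?_
      rw [prod_pow]
    rw [h4]
    exact mul_le_mul_of_nonneg_right h3 (sum_nonneg fun t _ => prod_nonneg fun i _ => by positivity)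
  refine (sum_le_sum h1).trans ?_
  rw [← mul_sum]
  refine mul_le_mul_of_nonneg_left ?_ (by positivity)
  rw [Finset.sum_fiberwise_of_maps_to (g := fun d : Fin k → ℕ => ∏ i, d i)
    (fun d hd => prod_mem hP hM hd), Finset.sum_pow']

open Classical in
/-- **Moments.** -/
theorem moment (Q k : ℕ) {P : Finset ℕ} {M : ℕ} (hP : ∀ p ∈ P, p.Prime) (hM : ∀ p ∈ P, p ≤ M)
    (z : ℕ → ℂ) :
    ∑ f ∈ Icc 1 Q, ∑ χ ∈ (univ : Finset (DirichletCharacter ℂ f)).filter (fun χ => χ.IsPrimitive),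
      ‖∑ p ∈ P, z p * χ (p : ZMod f)‖ ^ (2 * k) ≤
      6 * ((M : ℝ) ^ k + (Q : ℝ) ^ 2) * ((k : ℝ) ^ k * (∑ p ∈ P, ‖z p‖ ^ 2) ^ k) := by
  have hLS := Pool.Agent.Helper112.mult_large_sieve (M ^ k) Q (fun n => cf P k z n)
  have h1 := sum_cf_sq hP hM k z
  have h0 : (0 : ℝ) ≤ 6 * (((M ^ k : ℕ) : ℝ) + (Q : ℝ) ^ 2) := by positivity
  have h2 := hLS.trans (mul_le_mul_of_nonneg_left h1 h0)
  push_cast at h2
  refine le_trans ?_ h2
  refine sum_le_sum fun f hf => ?_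
  rw [mem_Icc] at hf
  have hf1 : (1 : ℝ) ≤ (f : ℝ) / (Nat.totient f : ℝ) := by
    rw [le_div_iff₀ (by exact_mod_cast Nat.totient_pos.mpr hf.1), one_mul]
    exact_mod_cast Nat.totient_le f
  have h3 : ∀ χ : DirichletCharacter ℂ f, ‖∑ p ∈ P, z p * χ (p : ZMod f)‖ ^ (2 * k) =
      ‖∑ n ∈ Icc 1 (M ^ k), cf P k z n * χ (n : ZMod f)‖ ^ 2 := by
    intro χ
    rw [← pow_expand hP hM k z f χ, norm_pow, ← pow_mul, mul_comm]
  rw [sum_congr rfl fun χ _ => h3 χ]
  refine le_mul_of_one_le_left (sum_nonneg fun χ _ => by positivity) hf1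

end Pool.Agent.H11.TC
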