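import Mathlib
import Pool.Agent.H11.TC.Moment

/-!
# The number of the primitive characters with a large sum over a dyadic block of primes
-/

set_option autoImplicit false

open Finset

namespace Pool.Agent.H11.TC

/-- the primes `2 ^ j < p ≤ 2 ^ (j + 1)` -/
def blk (j : ℕ) : Finset ℕ := (Ioc (2 ^ j) (2 ^ (j + 1))).filter Nat.Prime

theorem mem_blk {j p : ℕ} : p ∈ blk j ↔ (2 ^ j < p ∧ p ≤ 2 ^ (j + 1)) ∧ p.Prime := by
  rw [blk, mem_filter, mem_Ioc]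

theorem card_blk (j : ℕ) : ((blk j).card : ℝ) ≤ 2 ^ j := by
  have h : (blk j).card ≤ 2 ^ j := by
    refine (card_filter_le _ _).trans ?_
    rw [Nat.card_Ioc, pow_succ]
    omega
  exact_mod_cast h

/-- the sum over a block -/
noncomputable def Z (a : ℕ → ℂ) (j : ℕ) {f : ℕ} (χ : DirichletCharacter ℂ f) (u : ℂ) : ℂ :=
  ∑ p ∈ blk j, (a p * (p : ℂ) ^ (-(1 + u))) * χ (p : ZMod f)

open Classical in
/-- the primitive Dirichlet characters of conductor at most `Q` -/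
noncomputable def chars (Q : ℕ) : Finset (Σ f : ℕ, DirichletCharacter ℂ f) :=
  (Icc 1 Q).sigma fun _ => univ.filter fun χ => χ.IsPrimitive

theorem norm_cpow {p : ℕ} (hp : 0 < p) (u : ℂ) :
    ‖(p : ℂ) ^ (-(1 + u))‖ = (p : ℝ) ^ (-(1 + u.re)) := by
  rw [Complex.norm_natCast_cpow_of_pos hp]
  simp

theorem norm_cpow_le {j p : ℕ} (hp : p ∈ blk j) {u : ℂ} (hu : 0 ≤ u.re) :
    ‖(p : ℂ) ^ (-(1 + u))‖ ≤ 1 / 2 ^ j := by
  rw [mem_blk] at hp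
  have hp1 : (1 : ℝ) ≤ p := by exact_mod_cast hp.2.one_lt.le
  have h2 : (2 : ℝ) ^ j ≤ p := by exact_mod_cast hp.1.1.le
  rw [norm_cpow hp.2.pos]
  calc (p : ℝ) ^ (-(1 + u.re)) ≤ (p : ℝ) ^ (-1 : ℝ) :=
        Real.rpow_le_rpow_of_exponent_le hp1 (by linarith)
    _ = 1 / p := by rw [Real.rpow_neg_one, one_div]
    _ ≤ 1 / 2 ^ j := by
        apply one_div_le_one_div_of_le (by positivity) h2

theorem sum_sq_le {a : ℕ → ℂ} {B : ℝ} (ha : ∀ p, ‖a p‖ ≤ B) (j : ℕ) {u : ℂ} (hu : 0 ≤ u.re) :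
    ∑ p ∈ blk j, ‖a p * (p : ℂ) ^ (-(1 + u))‖ ^ 2 ≤ B ^ 2 / 2 ^ j := by
  have hB : 0 ≤ B := (norm_nonneg _).trans (ha 0)
  have h1 : ∀ p ∈ blk j, ‖a p * (p : ℂ) ^ (-(1 + u))‖ ^ 2 ≤ (B * (1 / 2 ^ j)) ^ 2 := by
    intro p hp
    rw [norm_mul]
    have := norm_cpow_le hp hu
    have := ha p
    gcongr
  refine (sum_le_sum h1).trans ?_
  rw [sum_const, nsmul_eq_mul]
  have h2 := card_blk j
  calc ((blk j).card : ℝ) * (B * (1 / 2 ^ j)) ^ 2 ≤ 2 ^ j * (B * (1 / 2 ^ j)) ^ 2 := by gcongr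
    _ = _ := by
        field_simp

open Classical in
theorem card_big (Q j k : ℕ) {a : ℕ → ℂ} {B : ℝ} (ha : ∀ p, ‖a p‖ ≤ B) {u : ℂ}
    (hu : 0 ≤ u.re) {lam : ℝ} (hlam : 0 < lam) :
    (((chars Q).filter fun x => lam < ‖Z a j x.2 u‖).card : ℝ) * lam ^ (2 * k) ≤
      6 * (((2 : ℝ) ^ (j + 1)) ^ k + (Q : ℝ) ^ 2) * ((k : ℝ) ^ k * (B ^ 2 / 2 ^ j) ^ k) := by
  have hm := moment Q k (P := blk j) (M := 2 ^ (j + 1)) (fun p hp => (mem_blk.mp hp).2)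
    (fun p hp => (mem_blk.mp hp).1.2) (fun p => a p * (p : ℂ) ^ (-(1 + u)))
  have h1 : (((chars Q).filter fun x => lam < ‖Z a j x.2 u‖).card : ℝ) * lam ^ (2 * k) ≤
      ∑ x ∈ chars Q, ‖Z a j x.2 u‖ ^ (2 * k) := by
    rw [← nsmul_eq_mul, ← sum_const]
    calc _ ≤ ∑ x ∈ (chars Q).filter (fun x => lam < ‖Z a j x.2 u‖), ‖Z a j x.2 u‖ ^ (2 * k) := by
          refine sum_le_sum fun x hx => ?_
          rw [mem_filter] at hx
          have := hx.2.le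
          gcongr
      _ ≤ _ := sum_le_sum_of_subset_of_nonneg (filter_subset _ _) fun x _ _ => by positivity
  have h2 : ∑ x ∈ chars Q, ‖Z a j x.2 u‖ ^ (2 * k) =
      ∑ f ∈ Icc 1 Q, ∑ χ ∈ (univ : Finset (DirichletCharacter ℂ f)).filter (fun χ => χ.IsPrimitive),
        ‖∑ p ∈ blk j, (a p * (p : ℂ) ^ (-(1 + u))) * χ (p : ZMod f)‖ ^ (2 * k) := by
    rw [chars, sum_sigma]
    rfl
  rw [h2] at h1
  refine h1.trans (hm.trans ?_)
  push_cast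
  have := sum_sq_le ha j hu
  gcongr

/-- the moment that is used -/
def kk (Q j : ℕ) : ℕ := Nat.clog (2 ^ (j + 1)) (Q ^ 2)

theorem kk_le (Q j : ℕ) : (Q : ℝ) ^ 2 ≤ ((2 : ℝ) ^ (j + 1)) ^ kk Q j := by
  have h := Nat.le_pow_clog (b := 2 ^ (j + 1)) (Nat.one_lt_two_pow (by omega)) (Q ^ 2)
  exact_mod_cast h

open Classical in
theorem card_big' (Q j : ℕ) (hj : 1 ≤ j) {a : ℕ → ℂ} {B : ℝ} (ha : ∀ p, ‖a p‖ ≤ B) {u : ℂ}
    (hu : 0 ≤ u.re) :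
    (((chars Q).filter fun x => 1 / (2 * (j : ℝ) ^ 2) < ‖Z a j x.2 u‖).card : ℝ) ≤
      12 * (8 * B ^ 2 * kk Q j * (j : ℝ) ^ 4) ^ kk Q j := by
  have hj0 : (0 : ℝ) < j := by exact_mod_cast hj
  have h := card_big Q j (kk Q j) ha hu (lam := 1 / (2 * (j : ℝ) ^ 2)) (by positivity)
  set k := kk Q j with hk
  have h1 : 6 * (((2 : ℝ) ^ (j + 1)) ^ k + (Q : ℝ) ^ 2) * ((k : ℝ) ^ k * (B ^ 2 / 2 ^ j) ^ k) ≤
      12 * (2 * k * B ^ 2) ^ k := by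
    have h2 := kk_le Q j
    rw [← hk] at h2
    calc _ ≤ 6 * (((2 : ℝ) ^ (j + 1)) ^ k + ((2 : ℝ) ^ (j + 1)) ^ k) *
          ((k : ℝ) ^ k * (B ^ 2 / 2 ^ j) ^ k) := by gcongr
      _ = 12 * ((2 : ℝ) ^ (j + 1) * k * (B ^ 2 / 2 ^ j)) ^ k := by
          rw [mul_pow, mul_pow]
          ring
      _ = _ := by
          congr 2
          rw [pow_succ]
          field_simp
  have h3 := h.trans h1
  have h4 : (1 / (2 * (j : ℝ) ^ 2)) ^ (2 * k) = (1 / (4 * (j : ℝ) ^ 4)) ^ k := by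
    rw [pow_mul]
    congr 1
    field_simp
    norm_num
  rw [h4] at h3
  have h5 : (0 : ℝ) < (1 / (4 * (j : ℝ) ^ 4)) ^ k := by positivity
  rw [← le_div_iff₀ h5] at h3
  refine h3.trans (le_of_eq ?_)
  rw [mul_div_assoc, ← div_pow]
  congr 2
  field_simp
  ring

end Pool.Agent.H11.TC
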