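import Mathlib
import Pool.Agent.H11.TC.Count

/-!
# The size of the bounds
-/

set_option autoImplicit false

open Finset

namespace Pool.Agent.H11.TC

theorem kk_small (Q j : ℕ) (hQ : 2 ≤ Q) (h : 3 * Real.log Q ≤ j) : kk Q j ≤ 1 := by
  unfold kk
  apply Nat.clog_le_of_le_pow
  rw [pow_one]
  have hQ0 : (0 : ℝ) < Q := by exact_mod_cast (by omega : 0 < Q)
  have hL : 0 ≤ Real.log Q := Real.log_nonneg (by exact_mod_cast (by omega : 1 ≤ Q))
  have hl2 := Real.log_two_gt_d9
  have h1 : Real.log ((Q : ℝ) ^ 2) ≤ Real.log ((2 : ℝ) ^ (j + 1)) := by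
    rw [Real.log_pow, Real.log_pow]
    push_cast
    have h2 : 3 * Real.log Q * Real.log 2 ≤ ((j : ℝ) + 1) * Real.log 2 := by
      apply mul_le_mul_of_nonneg_right _ (by linarith)
      linarith
    nlinarith
  have h3 := (Real.log_le_log_iff (by positivity) (by positivity)).mp h1
  exact_mod_cast h3

theorem kk_bound (Q j : ℕ) (hj : 1 ≤ j) (hQ : 2 ≤ Q) (h : (j : ℝ) ≤ 3 * Real.log Q) :
    (kk Q j : ℝ) ≤ 6 * Real.log Q / j := by
  have hj0 : (0 : ℝ) < j := by exact_mod_cast hj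
  have hQ0 : (0 : ℝ) < Q := by exact_mod_cast (by omega : 0 < Q)
  have hl2 := Real.log_two_gt_d9
  have h0 : 1 ≤ 3 * Real.log Q / j := by
    rw [le_div_iff₀ hj0]
    linarith
  have hL : 0 ≤ Real.log Q := Real.log_nonneg (by exact_mod_cast (by omega : 1 ≤ Q))
  by_cases hk : kk Q j ≤ 1
  · have : (kk Q j : ℝ) ≤ 1 := by exact_mod_cast hk
    calc (kk Q j : ℝ) ≤ 1 := this
      _ ≤ 3 * Real.log Q / j := h0
      _ ≤ 6 * Real.log Q / j := by gcongr; norm_num
  · push Not at hk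
    have h1 : (2 ^ (j + 1)) ^ (kk Q j).pred < Q ^ 2 := by
      apply Nat.pow_pred_clog_lt_self (Nat.one_lt_two_pow (by omega))
      nlinarith
    have h2 : Real.log (((2 : ℝ) ^ (j + 1)) ^ (kk Q j - 1)) < Real.log ((Q : ℝ) ^ 2) := by
      apply Real.log_lt_log (by positivity)
      rw [Nat.pred_eq_sub_one] at h1
      exact_mod_cast h1
    rw [Real.log_pow, Real.log_pow, Real.log_pow, Nat.cast_sub hk.le] at h2
    push_cast at h2
    have h3 : ((kk Q j : ℝ) - 1) * j ≤ 3 * Real.log Q := by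
      have hk1 : (1 : ℝ) < kk Q j := by exact_mod_cast hk
      have h4 : ((kk Q j : ℝ) - 1) * j * (2 / 3) ≤ ((kk Q j : ℝ) - 1) * (((j : ℝ) + 1) * Real.log 2) := by
        rw [mul_assoc]
        apply mul_le_mul_of_nonneg_left _ (by linarith)
        nlinarith
      nlinarith
    rw [le_div_iff₀ hj0]
    nlinarith

theorem pow_bound {D A : ℝ} (hD : 0 ≤ D) (hA : 0 < A) (Q j : ℕ) (hj : 1 ≤ j) (hQ : 2 ≤ Q)
    (hL1 : 1 ≤ Real.log Q) (hLD : 162 * D ≤ Real.log Q ^ 2)
    (hjA : A * Real.log (Real.log Q) ≤ j) :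
    (D * kk Q j * (j : ℝ) ^ 4) ^ kk Q j ≤ (Q : ℝ) ^ (36 / A) + 1 + D * (j : ℝ) ^ 4 := by
  have hj0 : (0 : ℝ) < j := by exact_mod_cast hj
  have hQ0 : (0 : ℝ) < Q := by exact_mod_cast (by omega : 0 < Q)
  set L := Real.log Q with hLdef
  have hlogL : 0 ≤ Real.log L := Real.log_nonneg hL1
  rcases le_total (3 * L) j with h | h
  · have h1 := kk_small Q j hQ h
    have h2 : (0 : ℝ) ≤ (Q : ℝ) ^ (36 / A) := by positivity
    have h3 : 0 ≤ D * (j : ℝ) ^ 4 := by positivity
    interval_cases hk : kk Q j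
    · simp
      linarith
    · simp
      linarith
  · have h1 := kk_bound Q j hj hQ h
    rw [← hLdef] at h1
    have h2 : D * kk Q j * (j : ℝ) ^ 4 ≤ L ^ 6 := by
      calc D * kk Q j * (j : ℝ) ^ 4 ≤ D * (6 * L / j) * (j : ℝ) ^ 4 := by gcongr
        _ = 6 * D * L * (j : ℝ) ^ 3 := by field_simp
        _ ≤ 6 * D * L * (3 * L) ^ 3 := by gcongr
        _ = 162 * D * L ^ 4 := by ring
        _ ≤ L ^ 2 * L ^ 4 := by gcongr
        _ = L ^ 6 := by ring
    have hL0 : 0 < L := by linarith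
    calc (D * kk Q j * (j : ℝ) ^ 4) ^ kk Q j ≤ (L ^ 6) ^ kk Q j := by gcongr
      _ = Real.exp (6 * (kk Q j : ℝ) * Real.log L) := by
          rw [← pow_mul, ← Real.exp_log (pow_pos hL0 (6 * kk Q j)), Real.log_pow]
          push_cast
          rfl
      _ ≤ Real.exp (L * (36 / A)) := by
          apply Real.exp_le_exp.mpr
          calc 6 * (kk Q j : ℝ) * Real.log L ≤ 6 * (6 * L / j) * Real.log L := by gcongr
            _ = 36 * L * (Real.log L / j) := by ring
            _ ≤ 36 * L * (1 / A) := by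
                apply mul_le_mul_of_nonneg_left _ (by positivity)
                rw [div_le_div_iff₀ hj0 hA]
                linarith
            _ = _ := by ring
      _ = (Q : ℝ) ^ (36 / A) := by rw [Real.rpow_def_of_pos hQ0]
      _ ≤ _ := by
          have : 0 ≤ D * (j : ℝ) ^ 4 := by positivity
          linarith

end Pool.Agent.H11.TC
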