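import Mathlib
import Pool.Agent.H11.TC.Size

/-!
# The exceptional set, defined by a grid of points
-/

set_option autoImplicit false

open Finset

namespace Pool.Agent.H11.TC

theorem exp_lip {a b : ℂ} (ha : a.re ≤ 0) (hb : b.re ≤ 0) :
    ‖Complex.exp b - Complex.exp a‖ ≤ ‖b - a‖ := by
  have hconv : Convex ℝ {z : ℂ | z.re ≤ 0} := convex_halfSpace_re_le 0
  have h := hconv.norm_image_sub_le_of_norm_hasDerivWithin_le (f := Complex.exp)
    (f' := Complex.exp) (C := 1) (x := a) (y := b)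
    (fun x _ => (Complex.hasDerivAt_exp x).hasDerivWithinAt)
    (fun x hx => by
      rw [Complex.norm_exp]
      exact Real.exp_le_one_iff.mpr hx) ha hb
  rwa [one_mul] at h

theorem cpow_lip {p : ℕ} (hp : 0 < p) {u w : ℂ} (hu : 0 ≤ u.re) (hw : 0 ≤ w.re) :
    ‖(p : ℂ) ^ (-(1 + w)) - (p : ℂ) ^ (-(1 + u))‖ ≤ Real.log p / p * ‖w - u‖ := by
  have hp0 : (p : ℂ) ≠ 0 := by exact_mod_cast hp.ne'
  have hpr : (0 : ℝ) < p := by exact_mod_cast hp
  have hl : 0 ≤ Real.log p := Real.log_natCast_nonneg p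
  have e : ∀ z : ℂ, (p : ℂ) ^ (-(1 + z)) = (p : ℂ)⁻¹ * Complex.exp (-(Real.log p * z)) := by
    intro z
    rw [Complex.cpow_def_of_ne_zero hp0, show Complex.log (p : ℂ) * (-(1 + z)) =
      -Complex.log (p : ℂ) + -(Complex.log (p : ℂ) * z) by ring, Complex.exp_add, Complex.exp_neg,
      Complex.exp_log hp0, Complex.natCast_log]
  rw [e, e, ← mul_sub, norm_mul, norm_inv, Complex.norm_natCast]
  have h1 : ‖Complex.exp (-((Real.log p : ℂ) * w)) - Complex.exp (-((Real.log p : ℂ) * u))‖ ≤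
      Real.log p * ‖w - u‖ := by
    have hre : ∀ z : ℂ, 0 ≤ z.re → (-((Real.log p : ℂ) * z)).re ≤ 0 := by
      intro z hz
      rw [Complex.neg_re, Complex.re_ofReal_mul]
      have := mul_nonneg hl hz
      linarith
    refine (exp_lip (hre u hu) (hre w hw)).trans (le_of_eq ?_)
    rw [show -((Real.log p : ℂ) * w) - -((Real.log p : ℂ) * u) = -((Real.log p : ℂ) * (w - u)) by ring,
      norm_neg, norm_mul, Complex.norm_real, Real.norm_of_nonneg hl]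
  calc (p : ℝ)⁻¹ * ‖Complex.exp (-((Real.log p : ℂ) * w)) - Complex.exp (-((Real.log p : ℂ) * u))‖ ≤
      (p : ℝ)⁻¹ * (Real.log p * ‖w - u‖) := by gcongr
    _ = _ := by ring

theorem log_div_le {j p : ℕ} (hp : p ∈ blk j) : Real.log p / p ≤ (j + 1) / 2 ^ j := by
  rw [mem_blk] at hp
  have hp0 : (0 : ℝ) < p := by exact_mod_cast hp.2.pos
  have h1 : (2 : ℝ) ^ j ≤ p := by exact_mod_cast hp.1.1.le
  have h2 : (p : ℝ) ≤ 2 ^ (j + 1) := by exact_mod_cast hp.1.2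
  have h3 : Real.log p ≤ j + 1 := by
    calc Real.log p ≤ Real.log (2 ^ (j + 1)) := Real.log_le_log hp0 h2
      _ = ((j + 1 : ℕ) : ℝ) * Real.log 2 := Real.log_pow _ _
      _ ≤ ((j + 1 : ℕ) : ℝ) * 1 := by
          gcongr
          have := Real.log_two_lt_d9
          linarith
      _ = j + 1 := by push_cast; ring
  calc Real.log p / p ≤ (j + 1) / p := by gcongr
    _ ≤ _ := by gcongr

theorem Z_lip {a : ℕ → ℂ} {B : ℝ} (ha : ∀ p, ‖a p‖ ≤ B) (j : ℕ) {f : ℕ}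
    (χ : DirichletCharacter ℂ f) {u w : ℂ} (hu : 0 ≤ u.re) (hw : 0 ≤ w.re) :
    ‖Z a j χ w - Z a j χ u‖ ≤ B * (j + 1) * ‖w - u‖ := by
  have hB : 0 ≤ B := (norm_nonneg _).trans (ha 0)
  unfold Z
  rw [← sum_sub_distrib]
  refine (norm_sum_le _ _).trans ?_
  have h1 : ∀ p ∈ blk j, ‖(a p * (p : ℂ) ^ (-(1 + w))) * χ (p : ZMod f) -
      (a p * (p : ℂ) ^ (-(1 + u))) * χ (p : ZMod f)‖ ≤ B * ((j + 1) / 2 ^ j * ‖w - u‖) := by
    intro p hp
    have e : (a p * (p : ℂ) ^ (-(1 + w))) * χ (p : ZMod f) -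
      (a p * (p : ℂ) ^ (-(1 + u))) * χ (p : ZMod f) =
      a p * ((p : ℂ) ^ (-(1 + w)) - (p : ℂ) ^ (-(1 + u))) * χ (p : ZMod f) := by ring
    rw [e, norm_mul, norm_mul]
    have h2 := cpow_lip (mem_blk.mp hp).2.pos hu hw
    have h3 := log_div_le hp
    have h4 := χ.norm_le_one (p : ZMod f)
    calc ‖a p‖ * ‖(p : ℂ) ^ (-(1 + w)) - (p : ℂ) ^ (-(1 + u))‖ * ‖χ (p : ZMod f)‖ ≤
        B * ((j + 1) / 2 ^ j * ‖w - u‖) * 1 := by
          have := ha p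
          gcongr
          exact h2.trans (by gcongr)
      _ = _ := by ring
  refine (sum_le_sum h1).trans ?_
  rw [sum_const, nsmul_eq_mul]
  have h5 := card_blk j
  calc ((blk j).card : ℝ) * (B * ((j + 1) / 2 ^ j * ‖w - u‖)) ≤
      2 ^ j * (B * ((j + 1) / 2 ^ j * ‖w - u‖)) := by gcongr
    _ = _ := by field_simp

/-- the points of the grid -/
noncomputable def gp (M : ℕ) (x : ℕ × ℤ) : ℂ :=
  (((x.1 : ℝ) / M : ℝ) : ℂ) + (((x.2 : ℝ) / M : ℝ) : ℂ) * Complex.I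

/-- the indices of the grid -/
noncomputable def grid (M T : ℕ) : Finset (ℕ × ℤ) := range (M + 1) ×ˢ Icc (-((T * M : ℕ) : ℤ)) ((T * M : ℕ) : ℤ)

theorem card_grid (M T : ℕ) : (grid M T).card = (M + 1) * (2 * T * M + 1) := by
  unfold grid
  rw [card_product, card_range, Int.card_Icc]
  congr 1
  have : ((T * M : ℕ) : ℤ) + 1 - -((T * M : ℕ) : ℤ) = ((2 * T * M + 1 : ℕ) : ℤ) := by
    push_cast
    ring
  rw [this, Int.toNat_natCast]

theorem gp_re (M : ℕ) (x : ℕ × ℤ) : 0 ≤ (gp M x).re := by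
  unfold gp
  simp
  positivity

theorem exists_grid {M T : ℕ} (hM : 0 < M) {ε τ : ℝ} (h0 : 0 ≤ ε) (h1 : ε ≤ 1) (hτ : |τ| ≤ T) :
    ∃ x ∈ grid M T, ‖((ε : ℂ) + τ * Complex.I) - gp M x‖ ≤ 2 / M := by
  have hM0 : (0 : ℝ) < M := by exact_mod_cast hM
  refine ⟨(⌊(M : ℝ) * ε⌋₊, ⌊(M : ℝ) * τ⌋), ?_, ?_⟩
  · unfold grid
    rw [mem_product, mem_range, mem_Icc]
    refine ⟨?_, ?_, ?_⟩
    · have : ⌊(M : ℝ) * ε⌋₊ ≤ M := by
        apply Nat.floor_le_of_le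
        nlinarith
      exact Nat.lt_succ_of_le this
    · rw [Int.le_floor]
      push_cast
      have := (abs_le.mp hτ).1
      nlinarith
    · have h2 : (M : ℝ) * τ ≤ ((T * M : ℕ) : ℝ) := by
        push_cast
        have := (abs_le.mp hτ).2
        nlinarith
      have h3 : ((⌊(M : ℝ) * τ⌋ : ℤ) : ℝ) ≤ (((T * M : ℕ) : ℤ) : ℝ) := (Int.floor_le _).trans h2
      exact_mod_cast h3
  · unfold gp
    have e : ((ε : ℂ) + τ * Complex.I) - ((((⌊(M : ℝ) * ε⌋₊ : ℕ) : ℝ) / M : ℝ) +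
        (((⌊(M : ℝ) * τ⌋ : ℤ) : ℝ) / M : ℝ) * Complex.I) =
        ((ε - (⌊(M : ℝ) * ε⌋₊ : ℝ) / M : ℝ) : ℂ) + ((τ - (⌊(M : ℝ) * τ⌋ : ℝ) / M : ℝ) : ℂ) * Complex.I := by
      push_cast
      ring
    rw [e]
    refine (norm_add_le _ _).trans ?_
    rw [norm_mul, Complex.norm_I, mul_one, Complex.norm_real, Complex.norm_real, Real.norm_eq_abs,
      Real.norm_eq_abs]
    have h2 : |ε - (⌊(M : ℝ) * ε⌋₊ : ℝ) / M| ≤ 1 / M := by
      have a1 := Nat.floor_le (a := (M : ℝ) * ε) (by positivity)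
      have a2 := Nat.lt_floor_add_one ((M : ℝ) * ε)
      have e1 : ε - (⌊(M : ℝ) * ε⌋₊ : ℝ) / M = (M * ε - ⌊(M : ℝ) * ε⌋₊) / M := by field_simp
      rw [e1, abs_div, abs_of_pos hM0]
      gcongr
      rw [abs_le]
      constructor <;> linarith
    have h3 : |τ - (⌊(M : ℝ) * τ⌋ : ℝ) / M| ≤ 1 / M := by
      have a1 := Int.floor_le ((M : ℝ) * τ)
      have a2 := Int.lt_floor_add_one ((M : ℝ) * τ)
      have e1 : τ - (⌊(M : ℝ) * τ⌋ : ℝ) / M = (M * τ - ⌊(M : ℝ) * τ⌋) / M := by field_simp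
      rw [e1, abs_div, abs_of_pos hM0]
      gcongr
      rw [abs_le]
      constructor <;> linarith
    calc _ ≤ 1 / (M : ℝ) + 1 / M := add_le_add h2 h3
      _ = _ := by ring

open Classical in
/-- the exceptional set -/
noncomputable def Exc (Q j0 J M T : ℕ) (a : ℕ → ℂ) : Finset (Σ f : ℕ, DirichletCharacter ℂ f) :=
  (chars Q).filter fun x => ∃ j ∈ Ico j0 J, ∃ g ∈ grid M T, 1 / (2 * (j : ℝ) ^ 2) < ‖Z a j x.2 (gp M g)‖

theorem card_Exc {a : ℕ → ℂ} {B : ℝ} (ha : ∀ p, ‖a p‖ ≤ B) (Q j0 J M T : ℕ) (hj0 : 1 ≤ j0) {W : ℝ}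
    (hW0 : 0 ≤ W)
    (hW : ∀ j ∈ Ico j0 J, 12 * (8 * B ^ 2 * kk Q j * (j : ℝ) ^ 4) ^ kk Q j ≤ W) :
    ((Exc Q j0 J M T a).card : ℝ) ≤ J * ((M + 1) * (2 * T * M + 1)) * W := by
  classical
  have hsub : Exc Q j0 J M T a ⊆ (Ico j0 J).biUnion fun j => (grid M T).biUnion fun g =>
      (chars Q).filter fun x => 1 / (2 * (j : ℝ) ^ 2) < ‖Z a j x.2 (gp M g)‖ := by
    intro x hx
    unfold Exc at hx
    rw [mem_filter] at hx
    obtain ⟨hx1, j, hj, g, hg, h⟩ := hx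
    rw [mem_biUnion]
    refine ⟨j, hj, ?_⟩
    rw [mem_biUnion]
    refine ⟨g, hg, ?_⟩
    rw [mem_filter]
    exact ⟨hx1, h⟩
  have h1 := (card_le_card hsub).trans card_biUnion_le
  have h2 : ((Exc Q j0 J M T a).card : ℝ) ≤ ∑ j ∈ Ico j0 J, ∑ g ∈ grid M T, W := by
    calc ((Exc Q j0 J M T a).card : ℝ) ≤ ((∑ j ∈ Ico j0 J, ((grid M T).biUnion fun g =>
        (chars Q).filter fun x => 1 / (2 * (j : ℝ) ^ 2) < ‖Z a j x.2 (gp M g)‖).card : ℕ) : ℝ) := by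
          exact_mod_cast h1
      _ = ∑ j ∈ Ico j0 J, ((((grid M T).biUnion fun g =>
        (chars Q).filter fun x => 1 / (2 * (j : ℝ) ^ 2) < ‖Z a j x.2 (gp M g)‖).card : ℕ) : ℝ) := by
          push_cast
          rfl
      _ ≤ _ := by
          refine sum_le_sum fun j hj => ?_
          have h3 := card_biUnion_le (s := grid M T) (t := fun g =>
            (chars Q).filter fun x => 1 / (2 * (j : ℝ) ^ 2) < ‖Z a j x.2 (gp M g)‖)
          calc _ ≤ ((∑ g ∈ grid M T, ((chars Q).filter fun x =>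
              1 / (2 * (j : ℝ) ^ 2) < ‖Z a j x.2 (gp M g)‖).card : ℕ) : ℝ) := by exact_mod_cast h3
            _ = ∑ g ∈ grid M T, (((chars Q).filter fun x =>
              1 / (2 * (j : ℝ) ^ 2) < ‖Z a j x.2 (gp M g)‖).card : ℝ) := by push_cast; rfl
            _ ≤ _ := by
                refine sum_le_sum fun g _ => ?_
                refine le_trans ?_ (hW j hj)
                exact card_big' Q j (hj0.trans (mem_Ico.mp hj).1) ha (gp_re M g)
  refine h2.trans ?_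
  rw [sum_const, sum_const, nsmul_eq_mul, nsmul_eq_mul, card_grid, Nat.card_Ico]
  push_cast
  have h4 : ((J - j0 : ℕ) : ℝ) ≤ J := by exact_mod_cast Nat.sub_le _ _
  calc ((J - j0 : ℕ) : ℝ) * (((M : ℝ) + 1) * (2 * T * M + 1) * W) ≤
      J * (((M : ℝ) + 1) * (2 * T * M + 1) * W) := by gcongr
    _ = _ := by ring

end Pool.Agent.H11.TC
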