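import Mathlib

/-!
# L-functions twisted by Dirichlet characters: definitions
-/

set_option autoImplicit false

namespace Pool.Agent.H11.TC

open NumberField IsDedekindDomain

variable {K : Type} [Field K] [NumberField K]

/-- The Euler product with the roots `β v j` over the primes `v` of `K`. -/
noncomputable def LFun {N : ℕ} (β : HeightOneSpectrum (𝓞 K) → Fin N → ℂ) (s : ℂ) : ℂ :=
  ∏' v : HeightOneSpectrum (𝓞 K), ∏ j, (1 - β v j * (Ideal.absNorm v.asIdeal : ℂ) ^ (-s))⁻¹

/-- The `β v j` are the roots of the Euler factors of `L(H^i(X) ⊗ χ ∘ N, s)`, where `α v j` are the eigenvalues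
of Frobenius on `H^i(X)` for `v` outside of the finite set `S`: `β v j = α v j χ(q_v)` for the primes outside of
`S` which do not divide the conductor; at the other primes they are arbitrary numbers of absolute value at most
`q_v ^ (i / 2)` (for example zero). -/
structure IsTwist (i : ℕ) (S : Finset (HeightOneSpectrum (𝓞 K))) {N : ℕ}
    (α β : HeightOneSpectrum (𝓞 K) → Fin N → ℂ) {f : ℕ} (χ : DirichletCharacter ℂ f) : Prop where
  good : ∀ v ∉ S, (Ideal.absNorm v.asIdeal).Coprime f → ∀ j,
    β v j = α v j * χ ((Ideal.absNorm v.asIdeal : ℕ) : ZMod f)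
  bound : ∀ v j, ‖β v j‖ ≤ (Ideal.absNorm v.asIdeal : ℝ) ^ ((i : ℝ) / 2)

end Pool.Agent.H11.TC
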