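import Mathlib
import Pool.Agent.H11.TC.Defs
import Pool.Graph.R_seed8.H921R2.TatePole.BaseChange
import Pool.Graph.R_seed8.Y722.HS.Tail
import Pool.Graph.R_seed8.Helper601.Mertens

/-!
# The logarithm of the Euler product as a sum over the rational primes
-/

set_option autoImplicit false

namespace Pool.Agent.H11.TC

open NumberField IsDedekindDomain Finset Filter Topology
open Pool.Agent.H921R2.TatePole (nm below deg R w kL kL_log deg_two_bound CK C0 bddmul_summable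
  w_summable two_le_nm nm_eq tsum_fiber summable_fiber nm_summable R_le prime_sum_bdd Lam)

variable {K : Type} [Field K] [NumberField K] {N : ℕ}

/-- the normalised roots, with the factor `q_v ^ (- i τ)` -/
noncomputable def nrm (β : HeightOneSpectrum (𝓞 K) → Fin N → ℂ) (i : ℕ) (τ : ℝ)
    (v : HeightOneSpectrum (𝓞 K)) (j : Fin N) : ℂ :=
  β v j * (nm v : ℂ) ^ (-(((i : ℝ) / 2 : ℝ) + τ * Complex.I : ℂ))

theorem norm_nrm {β : HeightOneSpectrum (𝓞 K) → Fin N → ℂ} {i : ℕ}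
    (hβ : ∀ v j, ‖β v j‖ ≤ (Ideal.absNorm v.asIdeal : ℝ) ^ ((i : ℝ) / 2)) (τ : ℝ)
    (v : HeightOneSpectrum (𝓞 K)) (j : Fin N) : ‖nrm β i τ v j‖ ≤ 1 := by
  have h2 := two_le_nm v
  have h0 : (0 : ℝ) < nm v := by exact_mod_cast (by omega : 0 < nm v)
  unfold nrm
  rw [norm_mul, Complex.norm_natCast_cpow_of_pos (by omega)]
  have e : (-((((i : ℝ) / 2 : ℝ) : ℂ) + τ * Complex.I)).re = -((i : ℝ) / 2) := by simp
  rw [e]
  calc ‖β v j‖ * (nm v : ℝ) ^ (-((i : ℝ) / 2)) ≤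
      (nm v : ℝ) ^ ((i : ℝ) / 2) * (nm v : ℝ) ^ (-((i : ℝ) / 2)) := by
        gcongr
        exact hβ v j
    _ = 1 := by rw [← Real.rpow_add h0]; simp

/-- the contribution of the primes of degree one above `p` -/
noncomputable def G (β : HeightOneSpectrum (𝓞 K) → Fin N → ℂ) (i : ℕ) (τ : ℝ) (p : Nat.Primes) : ℝ :=
  ∑ v : {v : HeightOneSpectrum (𝓞 K) // below v = p},
    if deg v.1 = 1 then (∑ j, nrm β i τ v.1 j).re else 0

theorem G_le {β : HeightOneSpectrum (𝓞 K) → Fin N → ℂ} {i : ℕ}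
    (hβ : ∀ v j, ‖β v j‖ ≤ (Ideal.absNorm v.asIdeal : ℝ) ^ ((i : ℝ) / 2)) (τ : ℝ) (p : Nat.Primes) :
    |G β i τ p| ≤ N * R K p := by
  classical
  unfold G
  refine (abs_sum_le_sum_abs _ _).trans ?_
  have h1 : ∀ v : {v : HeightOneSpectrum (𝓞 K) // below v = p},
      |if deg v.1 = 1 then (∑ j, nrm β i τ v.1 j).re else 0| ≤ if deg v.1 = 1 then (N : ℝ) else 0 := by
    intro v
    split_ifs
    · refine (Complex.abs_re_le_norm _).trans ((norm_sum_le _ _).trans ?_)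
      calc ∑ j, ‖nrm β i τ v.1 j‖ ≤ ∑ _j : Fin N, (1 : ℝ) := sum_le_sum fun j _ => norm_nrm hβ τ _ j
        _ = N := by simp
    · simp
  refine (sum_le_sum fun v _ => h1 v).trans (le_of_eq ?_)
  rw [← sum_filter, sum_const, nsmul_eq_mul, R, mul_comm]

/-- the Euler product and the sum over the primes -/
theorem log_LFun (i N : ℕ) {β : HeightOneSpectrum (𝓞 K) → Fin N → ℂ}
    (hβ : ∀ v j, ‖β v j‖ ≤ (Ideal.absNorm v.asIdeal : ℝ) ^ ((i : ℝ) / 2)) (ε τ : ℝ) (hε : 0 < ε) :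
    LFun β ((i : ℂ) / 2 + 1 + ε + τ * Complex.I) ≠ 0 ∧
    |Real.log ‖LFun β ((i : ℂ) / 2 + 1 + ε + τ * Complex.I)‖ -
      ∑' p : Nat.Primes, G β i τ p * w (1 + ε) p| ≤ N * CK K + N * Module.finrank ℚ K * C0 := by
  classical
  have hx : 1 < 1 + ε := by linarith
  have h1 := kL_log (norm_nrm hβ τ) hx
  have e1 : kL (nrm β i τ) ((1 + ε : ℝ) : ℂ) = LFun β ((i : ℂ) / 2 + 1 + ε + τ * Complex.I) := by
    unfold kL LFun
    refine tprod_congr fun v => Finset.prod_congr rfl fun j _ => ?_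
    have h0 : ((nm v : ℕ) : ℂ) ≠ 0 := by
      have := two_le_nm v
      exact_mod_cast (by omega : nm v ≠ 0)
    unfold nrm
    change (1 - β v j * (nm v : ℂ) ^ (-(((i : ℝ) / 2 : ℝ) + τ * Complex.I : ℂ)) *
      (nm v : ℂ) ^ (-((1 + ε : ℝ) : ℂ)))⁻¹ = (1 - β v j * (nm v : ℂ) ^ _)⁻¹
    rw [mul_assoc, ← Complex.cpow_add _ _ h0]
    congr 4
    push_cast
    ring
  rw [e1] at h1
  refine ⟨h1.1, ?_⟩
  have h2 := deg_two_bound (K := K) hx (g := fun v => (∑ j, nrm β i τ v j).re) (C := N) (by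
    intro v
    refine (Complex.abs_re_le_norm _).trans ((norm_sum_le _ _).trans ?_)
    calc ∑ j, ‖nrm β i τ v j‖ ≤ ∑ _j : Fin N, (1 : ℝ) := sum_le_sum fun j _ => norm_nrm hβ τ _ j
      _ = N := by simp)
  have h3 := h1.2
  rw [Fintype.card_fin] at h3
  have h4 : ∑' p : Nat.Primes, (∑ v : {v : HeightOneSpectrum (𝓞 K) // below v = p},
      if deg v.1 = 1 then (fun v => (∑ j, nrm β i τ v j).re) v.1 else 0) * w (1 + ε) p =
      ∑' p : Nat.Primes, G β i τ p * w (1 + ε) p := rfl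
  rw [h4] at h2
  have h5 := abs_add_le (Real.log ‖LFun β ((i : ℂ) / 2 + 1 + ε + τ * Complex.I)‖ -
      ∑' v : HeightOneSpectrum (𝓞 K), (∑ j, nrm β i τ v j).re * (nm v : ℝ) ^ (-(1 + ε)))
    (∑' v : HeightOneSpectrum (𝓞 K), (∑ j, nrm β i τ v j).re * (nm v : ℝ) ^ (-(1 + ε)) -
      ∑' p : Nat.Primes, G β i τ p * w (1 + ε) p)
  rw [sub_add_sub_cancel] at h5
  linarith

/-- a function on the primes, extended by zero to all natural numbers -/
noncomputable def ext (g : Nat.Primes → ℝ) (n : ℕ) : ℝ := if h : n.Prime then g ⟨n, h⟩ else 0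

theorem ext_le {g : Nat.Primes → ℝ} {B : ℝ} (hB : 0 ≤ B) (hg : ∀ p, |g p| ≤ B) (n : ℕ) :
    |ext g n| ≤ B := by
  unfold ext
  split_ifs
  · exact hg _
  · simpa using hB

/-- transfer to the natural numbers -/
theorem hasSum_ext {g : Nat.Primes → ℝ} {x : ℝ} (hs : Summable fun p => g p * w x p) :
    HasSum (fun n : ℕ => ext g n * (n : ℝ) ^ (-x)) (∑' p : Nat.Primes, g p * w x p) := by
  have h2 : (fun p : Nat.Primes => g p * w x p) =
      (fun n : ℕ => ext g n * (n : ℝ) ^ (-x)) ∘ (fun p : Nat.Primes => (p : ℕ)) := by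
    funext p
    simp only [Function.comp_apply, ext, w]
    rw [dif_pos p.2]
    rfl
  have h3 := hs.hasSum
  rw [h2] at h3
  have hinj : Function.Injective (fun p : Nat.Primes => (p : ℕ)) := Nat.Primes.coe_nat_injective
  rw [hinj.hasSum_iff] at h3
  · have h4 : (∑' (b : Nat.Primes), ((fun n : ℕ => ext g n * (n : ℝ) ^ (-x)) ∘
        fun p : Nat.Primes => (p : ℕ)) b) = ∑' p : Nat.Primes, g p * w x p := by rw [← h2]
    rw [h4] at h3
    exact h3
  · intro n hn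
    have : ¬ n.Prime := fun h => hn ⟨⟨n, h⟩, rfl⟩
    simp only [ext]
    rw [dif_neg this, zero_mul]

/-- cutting the sum over the primes -/
theorem cut {g : Nat.Primes → ℝ} {B : ℝ} (hB : 0 ≤ B) (hg : ∀ p, |g p| ≤ B) {ε : ℝ} (h0 : 0 < ε)
    (h1 : ε ≤ 1) (y : ℕ) (hy : 2 ≤ y) :
    |∑' p : Nat.Primes, g p * w (1 + ε) p -
      ∑ p ∈ (Icc 1 y).filter Nat.Prime, ext g p * (p : ℝ) ^ (-(1 + ε))| ≤
      B * (16 / (ε * Real.log y)) := by
  classical
  have hs := bddmul_summable (x := 1 + ε) (by linarith) hg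
  have hs' := hasSum_ext hs
  have h5 := hs'.tendsto_sum_nat
  -- all partial sums
  have h6 : ∀ M : ℕ, y + 1 ≤ M →
      |∑ n ∈ range M, ext g n * (n : ℝ) ^ (-(1 + ε)) -
        ∑ p ∈ (Icc 1 y).filter Nat.Prime, ext g p * (p : ℝ) ^ (-(1 + ε))| ≤
        B * (16 / (ε * Real.log y)) := by
    intro M hM
    have e1 : ∑ n ∈ range M, ext g n * (n : ℝ) ^ (-(1 + ε)) =
        ∑ n ∈ (range M).filter Nat.Prime, ext g n * (n : ℝ) ^ (-(1 + ε)) := by
      rw [sum_filter]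
      refine sum_congr rfl fun n _ => ?_
      split_ifs with h
      · rfl
      · simp only [ext]
        rw [dif_neg h, zero_mul]
    have hsub : (Icc 1 y).filter Nat.Prime ⊆ (range M).filter Nat.Prime := by
      intro p hp
      rw [mem_filter, mem_Icc] at hp
      rw [mem_filter, mem_range]
      exact ⟨by omega, hp.2⟩
    rw [e1, ← sum_sdiff hsub, add_sub_cancel_right]
    refine (abs_sum_le_sum_abs _ _).trans ?_
    have h7 := Pool.Agent.Y722.HS.tail_le y hy ε h0 h1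
      ((range M).filter Nat.Prime \ (Icc 1 y).filter Nat.Prime) (by
        intro p hp
        rw [Finset.mem_sdiff, mem_filter, mem_filter, mem_Icc, not_and] at hp
        refine ⟨hp.1.2, ?_⟩
        by_contra hlt
        push Not at hlt
        exact hp.2 ⟨hp.1.2.one_lt.le, hlt.le⟩ hp.1.2)
    calc _ ≤ ∑ p ∈ (range M).filter Nat.Prime \ (Icc 1 y).filter Nat.Prime,
          B * (p : ℝ) ^ (-1 - ε) := by
          refine sum_le_sum fun p _ => ?_
          rw [abs_mul, abs_of_nonneg (a := (p : ℝ) ^ (-(1 + ε))) (by positivity),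
            show (-(1 + ε)) = -1 - ε by ring]
          exact mul_le_mul_of_nonneg_right (ext_le hB hg p) (by positivity)
      _ = B * ∑ p ∈ (range M).filter Nat.Prime \ (Icc 1 y).filter Nat.Prime, (p : ℝ) ^ (-1 - ε) := by
          rw [mul_sum]
      _ ≤ _ := mul_le_mul_of_nonneg_left h7 hB
  have h8 := (h5.sub_const (∑ p ∈ (Icc 1 y).filter Nat.Prime, ext g p * (p : ℝ) ^ (-(1 + ε)))).abs
  exact le_of_tendsto h8 (eventually_atTop.mpr ⟨y + 1, h6⟩)

end Pool.Agent.H11.TC
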