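import Mathlib
import Pool.Agent.H11.TC.Euler

/-!
# The theorem of Mertens for the primes of degree one of a number field
-/

set_option autoImplicit false

namespace Pool.Agent.H11.TC

open NumberField IsDedekindDomain Finset Filter Topology
open Pool.Agent.H921R2.TatePole (nm below deg R w kL kL_log deg_two_bound CK C0 bddmul_summable
  w_summable two_le_nm nm_eq tsum_fiber summable_fiber nm_summable R_le prime_sum_bdd Lam)

variable (K : Type) [Field K] [NumberField K]

/-- the number of the primes of degree one above the primes -/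
noncomputable def RR (p : ℕ) : ℝ := ext (fun p => (R K p : ℝ)) p

theorem RR_nonneg (p : ℕ) : 0 ≤ RR K p := by
  unfold RR ext
  split_ifs
  · positivity
  · exact le_rfl

theorem RR_le (p : ℕ) : RR K p ≤ Module.finrank ℚ K := by
  unfold RR ext
  split_ifs
  · have := R_le (K := K) ⟨p, by assumption⟩
    simp only
    exact_mod_cast this
  · positivity

theorem RR_eq (p : Nat.Primes) : RR K p = R K p := by
  unfold RR ext
  rw [dif_pos p.2]
  rfl

theorem sum_RR_le {x : ℝ} (hx : 1 < x) (s : Finset ℕ) :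
    ∑ p ∈ s, RR K p * (p : ℝ) ^ (-x) ≤
      ∑' v : HeightOneSpectrum (𝓞 K), (nm v : ℝ) ^ (-x) + Module.finrank ℚ K * C0 := by
  classical
  have hb : ∀ p : Nat.Primes, |((R K p : ℕ) : ℝ)| ≤ Module.finrank ℚ K := by
    intro p
    rw [abs_of_nonneg (by positivity)]
    exact_mod_cast R_le p
  have hs := hasSum_ext (bddmul_summable hx hb)
  have h1 : ∑ p ∈ s, RR K p * (p : ℝ) ^ (-x) ≤ ∑' p : Nat.Primes, ((R K p : ℕ) : ℝ) * w x p := by
    refine sum_le_hasSum s (fun p _ => ?_) hs
    exact mul_nonneg (RR_nonneg K p) (by positivity)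
  have h2 := deg_two_bound (K := K) hx (g := fun _ => 1) (C := 1) (by intro v; simp)
  have h3 : ∑' p : Nat.Primes, (∑ v : {v : HeightOneSpectrum (𝓞 K) // below v = p},
      if deg v.1 = 1 then (1 : ℝ) else 0) * w x p = ∑' p : Nat.Primes, ((R K p : ℕ) : ℝ) * w x p := by
    refine tsum_congr fun p => ?_
    congr 1
    rw [R]
    simp
  simp only [one_mul] at h2
  rw [h3] at h2
  have h4 := (abs_le.mp h2).1
  linarith

theorem mertens_K : ∃ C : ℝ, 0 ≤ C ∧ ∀ y : ℕ, 3 ≤ y →
    ∑ p ∈ (Icc 1 y).filter Nat.Prime, RR K p / p ≤ Real.log (Real.log y) + C := by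
  classical
  obtain ⟨C1, hC1⟩ := prime_sum_bdd (K := K)
  obtain ⟨C2, hC2⟩ := Pool.Agent.Helper601.Mertens.mertens_log
  rw [eventually_nhdsWithin_iff, Metric.eventually_nhds_iff] at hC1
  obtain ⟨δ0, hδ0, hC1⟩ := hC1
  set nK : ℝ := (Module.finrank ℚ K : ℝ) with hnK
  have hnK0 : 0 ≤ nK := by positivity
  set y1 : ℕ := ⌈Real.exp (1 / δ0)⌉₊ with hy1
  have hC0 := Pool.Agent.H921R2.TatePole.C0_nonneg
  set D1 : ℝ := ∑ p ∈ (Icc 1 y1).filter Nat.Prime, RR K p / p with hD1
  have hD1n : 0 ≤ D1 := sum_nonneg fun p _ => div_nonneg (RR_nonneg K p) (by positivity)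
  refine ⟨D1 + (|C1| + nK * C0 + nK * (1 + |C2|)), by positivity, fun y hy => ?_⟩
  have hy0 : (0 : ℝ) < y := by exact_mod_cast (by omega : 0 < y)
  have hlog1 : 1 ≤ Real.log y := by
    rw [Real.le_log_iff_exp_le hy0]
    have h3 : (3 : ℝ) ≤ y := by exact_mod_cast hy
    have := Real.exp_one_lt_d9
    linarith
  have hll : 0 ≤ Real.log (Real.log y) := Real.log_nonneg hlog1
  by_cases hyy : y ≤ y1
  · have h1 : ∑ p ∈ (Icc 1 y).filter Nat.Prime, RR K p / p ≤ D1 := by
      refine sum_le_sum_of_subset_of_nonneg ?_ fun p _ _ => div_nonneg (RR_nonneg K p) (by positivity)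
      intro p hp
      rw [mem_filter, mem_Icc] at hp ⊢
      exact ⟨⟨hp.1.1, hp.1.2.trans hyy⟩, hp.2⟩
    have : 0 ≤ |C1| + nK * C0 + nK * (1 + |C2|) := by positivity
    linarith
  · push Not at hyy
    set δ : ℝ := 1 / Real.log y with hδ
    have hδp : 0 < δ := by positivity
    have hδlt : δ < δ0 := by
      have h1 : Real.exp (1 / δ0) < y := by
        refine lt_of_le_of_lt (Nat.le_ceil _) ?_
        exact_mod_cast hyy
      have h2 : 1 / δ0 < Real.log y := by
        rw [← Real.log_exp (1 / δ0)]
        exact Real.log_lt_log (Real.exp_pos _) h1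
      rw [hδ, div_lt_iff₀ (by linarith)]
      rw [div_lt_iff₀ hδ0] at h2
      linarith
    have hx : 1 < 1 + δ := by linarith
    have h1 := sum_RR_le K hx ((Icc 1 y).filter Nat.Prime)
    have h2 := hC1 (y := 1 + δ) (by
      rw [Real.dist_eq, add_sub_cancel_left, abs_of_pos hδp]
      exact hδlt) (by simpa using hδp)
    have h3 : Lam (1 + δ) = Real.log (Real.log y) := by
      unfold Lam
      rw [add_sub_cancel_left, hδ, one_div_one_div]
    simp only at h2
    rw [h3] at h2
    have h4 : ∑' v : HeightOneSpectrum (𝓞 K), (nm v : ℝ) ^ (-(1 + δ)) ≤ Real.log (Real.log y) + |C1| := by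
      have := (abs_le.mp h2).2
      have := le_abs_self C1
      linarith
    have h5 : ∑ p ∈ (Icc 1 y).filter Nat.Prime, RR K p / p ≤
        ∑ p ∈ (Icc 1 y).filter Nat.Prime, (RR K p * (p : ℝ) ^ (-(1 + δ)) +
          nK * δ * (Real.log p / p)) := by
      refine sum_le_sum fun p hp => ?_
      rw [mem_filter] at hp
      have hp0 : (0 : ℝ) < p := by exact_mod_cast hp.2.pos
      have e1 : (p : ℝ) ^ (-(1 + δ)) = (1 / p) * Real.exp (-(δ * Real.log p)) := by
        rw [neg_add, Real.rpow_add hp0, Real.rpow_neg_one, one_div, Real.rpow_def_of_pos hp0]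
        congr 2
        ring
      have e2 : 1 - δ * Real.log p ≤ Real.exp (-(δ * Real.log p)) := by
        have := Real.add_one_le_exp (-(δ * Real.log p))
        linarith
      have e3 := RR_nonneg K p
      have e4 := RR_le K p
      rw [e1]
      have hl : 0 ≤ Real.log p := Real.log_natCast_nonneg p
      calc RR K p / p = RR K p * (1 / p * (1 - δ * Real.log p)) + RR K p * δ * (Real.log p / p) := by ring
        _ ≤ RR K p * (1 / p * Real.exp (-(δ * Real.log p))) + nK * δ * (Real.log p / p) := by
            gcongr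
    refine h5.trans ?_
    rw [sum_add_distrib, ← mul_sum]
    have h6 := (abs_le.mp (hC2 y (by omega))).2
    have h7 : nK * δ * ∑ p ∈ (Icc 1 y).filter Nat.Prime, Real.log p / p ≤ nK * (1 + |C2|) := by
      have h8 : ∑ p ∈ (Icc 1 y).filter Nat.Prime, Real.log p / p ≤ Real.log y + |C2| := by
        have := le_abs_self C2
        linarith
      calc _ ≤ nK * δ * (Real.log y + |C2|) := by gcongr
        _ = nK * (δ * Real.log y + δ * |C2|) := by ring
        _ ≤ nK * (1 + 1 * |C2|) := by
            have h9 : δ * Real.log y = 1 := by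
              rw [hδ]
              field_simp
            have h10 : δ ≤ 1 := by
              rw [hδ, div_le_one (by linarith)]
              exact hlog1
            rw [h9]
            gcongr
        _ = _ := by ring
    linarith

end Pool.Agent.H11.TC
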