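import Mathlib
import Pool.Agent.H11.TC.MertK
import Pool.Agent.H11.TC.Grid

/-!
# The bound for a character outside of the exceptional set
-/

set_option autoImplicit false

namespace Pool.Agent.H11.TC

open NumberField IsDedekindDomain Finset Filter Topology
open Pool.Agent.H921R2.TatePole (nm below deg R w kL kL_log deg_two_bound CK C0 bddmul_summable
  w_summable two_le_nm nm_eq tsum_fiber summable_fiber nm_summable R_le prime_sum_bdd Lam fiber_card_le)

variable {K : Type} [Field K] [NumberField K] {N : ℕ}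

open Classical in
/-- the coefficients at the rational primes -/
noncomputable def aP (i : ℕ) (S : Finset (HeightOneSpectrum (𝓞 K)))
    (α : HeightOneSpectrum (𝓞 K) → Fin N → ℂ) (p : Nat.Primes) : ℂ :=
  ∑ v : {v : HeightOneSpectrum (𝓞 K) // below v = p},
    if deg v.1 = 1 ∧ v.1 ∉ S then ∑ j, α v.1 j * (nm v.1 : ℂ) ^ (-(((i : ℝ) / 2 : ℝ) : ℂ)) else 0

/-- the coefficients, extended by zero -/
noncomputable def aa (i : ℕ) (S : Finset (HeightOneSpectrum (𝓞 K)))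
    (α : HeightOneSpectrum (𝓞 K) → Fin N → ℂ) (p : ℕ) : ℂ :=
  if h : p.Prime then aP i S α ⟨p, h⟩ else 0

theorem aa_le {i : ℕ} {S : Finset (HeightOneSpectrum (𝓞 K))} {α : HeightOneSpectrum (𝓞 K) → Fin N → ℂ}
    (hα : ∀ v ∉ S, ∀ j, ‖α v j‖ ≤ (Ideal.absNorm v.asIdeal : ℝ) ^ ((i : ℝ) / 2)) (p : ℕ) :
    ‖aa i S α p‖ ≤ N * Module.finrank ℚ K := by
  classical
  unfold aa
  split_ifs with h
  · unfold aP
    set p' : Nat.Primes := ⟨p, h⟩
    refine (norm_sum_le _ _).trans ?_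
    have h1 : ∀ v : {v : HeightOneSpectrum (𝓞 K) // below v = p'},
        ‖if deg v.1 = 1 ∧ v.1 ∉ S then ∑ j, α v.1 j * (nm v.1 : ℂ) ^ (-(((i : ℝ) / 2 : ℝ) : ℂ)) else 0‖
          ≤ (N : ℝ) := by
      intro v
      split_ifs with hv
      · refine (norm_sum_le _ _).trans ?_
        have h2 : ∀ j, ‖α v.1 j * (nm v.1 : ℂ) ^ (-(((i : ℝ) / 2 : ℝ) : ℂ))‖ ≤ 1 := by
          intro j
          have h2 := two_le_nm v.1
          have h0 : (0 : ℝ) < nm v.1 := by exact_mod_cast (by omega : 0 < nm v.1)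
          rw [norm_mul, Complex.norm_natCast_cpow_of_pos (by omega)]
          have e : (-(((i : ℝ) / 2 : ℝ) : ℂ)).re = -((i : ℝ) / 2) := by simp
          rw [e]
          calc ‖α v.1 j‖ * (nm v.1 : ℝ) ^ (-((i : ℝ) / 2)) ≤
              (nm v.1 : ℝ) ^ ((i : ℝ) / 2) * (nm v.1 : ℝ) ^ (-((i : ℝ) / 2)) := by
                gcongr
                exact hα v.1 hv.2 j
            _ = 1 := by rw [← Real.rpow_add h0]; simp
        calc _ ≤ ∑ _j : Fin N, (1 : ℝ) := sum_le_sum fun j _ => h2 j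
          _ = N := by simp
      · simp
    refine (sum_le_sum fun v _ => h1 v).trans ?_
    rw [sum_const, nsmul_eq_mul, card_univ, mul_comm]
    have := fiber_card_le (K := K) p'
    have h3 : (Fintype.card {v : HeightOneSpectrum (𝓞 K) // below v = p'} : ℝ) ≤
      Module.finrank ℚ K := by exact_mod_cast this
    gcongr
  · rw [norm_zero]
    positivity

/-- the bad primes -/
noncomputable def bad (S : Finset (HeightOneSpectrum (𝓞 K))) (f : ℕ) : Finset ℕ :=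
  f.primeFactors ∪ S.image fun v => (below v : ℕ)

theorem card_bad (S : Finset (HeightOneSpectrum (𝓞 K))) {f Q : ℕ} (hf : 1 ≤ f) (hfQ : f ≤ Q)
    (hS : (S.card : ℝ) ≤ Real.log Q) : ((bad S f).card : ℝ) ≤ 3 * Real.log Q := by
  have h1 : ((bad S f).card : ℝ) ≤ f.primeFactors.card + S.card := by
    have := card_union_le f.primeFactors (S.image fun v => (below v : ℕ))
    have h2 := card_image_le (s := S) (f := fun v => (below v : ℕ))
    exact_mod_cast (this.trans (by omega))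
  have h2 : 2 ^ f.primeFactors.card ≤ f := by
    have h3 : ∏ p ∈ f.primeFactors, 2 ≤ ∏ p ∈ f.primeFactors, p :=
      Finset.prod_le_prod' fun p hp => (Nat.prime_of_mem_primeFactors hp).two_le
    rw [prod_const] at h3
    exact h3.trans (Nat.le_of_dvd hf (Nat.prod_primeFactors_dvd f))
  have h3 : (f.primeFactors.card : ℝ) * Real.log 2 ≤ Real.log Q := by
    rw [← Real.log_pow]
    apply Real.log_le_log (by positivity)
    exact_mod_cast h2.trans hfQ
  have h4 := Real.log_two_gt_d9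
  have h5 : (0 : ℝ) ≤ f.primeFactors.card := by positivity
  nlinarith

theorem term_eq {i : ℕ} {S : Finset (HeightOneSpectrum (𝓞 K))}
    {α β : HeightOneSpectrum (𝓞 K) → Fin N → ℂ} {f : ℕ} {χ : DirichletCharacter ℂ f}
    (h : IsTwist i S α β χ) (ε τ : ℝ) {p : ℕ} (hp : p.Prime) (hb : p ∉ bad S f) (hf : f ≠ 0) :
    ext (G β i τ) p * (p : ℝ) ^ (-(1 + ε)) =
      (aa i S α p * (p : ℂ) ^ (-(1 + ((ε : ℂ) + τ * Complex.I))) * χ (p : ZMod f)).re := by
  classical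
  have hp0 : (0 : ℝ) < p := by exact_mod_cast hp.pos
  have hpc : (p : ℂ) ≠ 0 := by exact_mod_cast hp.ne_zero
  unfold bad at hb
  rw [mem_union, not_or] at hb
  obtain ⟨hb1, hb2⟩ := hb
  have hcop : p.Coprime f := by
    rw [Nat.Prime.coprime_iff_not_dvd hp]
    intro hd
    exact hb1 (Nat.mem_primeFactors.mpr ⟨hp, hd, hf⟩)
  unfold ext aa
  rw [dif_pos hp, dif_pos hp]
  unfold G aP
  set p' : Nat.Primes := ⟨p, hp⟩ with hp'
  have hS : ∀ v : HeightOneSpectrum (𝓞 K), below v = p' → v ∉ S := by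
    intro v hv hvS
    apply hb2
    rw [mem_image]
    exact ⟨v, hvS, by rw [hv]⟩
  have e1 : (p : ℂ) ^ (-(1 + ((ε : ℂ) + τ * Complex.I))) =
      (((p : ℝ) ^ (-(1 + ε)) : ℝ) : ℂ) * (p : ℂ) ^ (-((τ : ℂ) * Complex.I)) := by
    rw [Complex.ofReal_cpow hp0.le, show (-(1 + ((ε : ℂ) + τ * Complex.I))) =
      ((-(1 + ε) : ℝ) : ℂ) + -((τ : ℂ) * Complex.I) by push_cast; ring, Complex.cpow_add _ _ hpc]
    simp
  rw [e1]
  have e2 : ∀ z : ℂ, (z * ((((p : ℝ) ^ (-(1 + ε)) : ℝ) : ℂ) * (p : ℂ) ^ (-((τ : ℂ) * Complex.I))) *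
      χ (p : ZMod f)).re = (z * (χ (p : ZMod f) * (p : ℂ) ^ (-((τ : ℂ) * Complex.I)))).re *
        (p : ℝ) ^ (-(1 + ε)) := by
    intro z
    rw [← Complex.re_mul_ofReal]
    congr 1
    ring
  rw [e2]
  congr 1
  rw [sum_mul, Complex.re_sum]
  refine sum_congr rfl fun v _ => ?_
  have hvS := hS v.1 v.2
  by_cases hd : deg v.1 = 1
  · rw [if_pos hd, if_pos ⟨hd, hvS⟩]
    have hnm : nm v.1 = p := by
      have := (nm_eq v.1).1
      rw [this, hd, pow_one, v.2]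
    have hab : Ideal.absNorm v.1.asIdeal = p := hnm
    rw [sum_mul]
    congr 1
    refine sum_congr rfl fun j _ => ?_
    unfold nrm
    rw [h.good v.1 hvS (by rw [hab]; exact hcop) j, hab, hnm,
      show (-((((i : ℝ) / 2 : ℝ) : ℂ) + τ * Complex.I)) =
        -(((i : ℝ) / 2 : ℝ) : ℂ) + -((τ : ℂ) * Complex.I) by ring, Complex.cpow_add _ _ hpc]
    ring
  · rw [if_neg hd, if_neg (fun h => hd h.1), zero_mul, Complex.zero_re]

/-- the primes in a union of blocks -/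
theorem blocks (h : ℕ → ℂ) (j0 J : ℕ) (hJ : j0 ≤ J) :
    ∑ p ∈ (Ioc (2 ^ j0) (2 ^ J)).filter Nat.Prime, h p = ∑ j ∈ Ico j0 J, ∑ p ∈ blk j, h p := by
  induction J, hJ using Nat.le_induction with
  | base => simp
  | succ n hn ih =>
    rw [sum_Ico_succ_top hn, ← ih]
    unfold blk
    rw [sum_filter, sum_filter, sum_filter,
      Finset.sum_Ioc_consecutive _ (Nat.pow_le_pow_right (by norm_num) hn)
        (Nat.pow_le_pow_right (by norm_num) (Nat.le_succ n))]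

theorem sum_inv_sq (j0 J : ℕ) (hj0 : 1 ≤ j0) : ∑ j ∈ Ico j0 J, 1 / (j : ℝ) ^ 2 ≤ 2 := by
  have h1 : Ico j0 J = Ioo (j0 - 1) J := by
    ext j
    rw [mem_Ico, mem_Ioo]
    omega
  rw [h1]
  have h2 := sum_Ioo_inv_sq_le (α := ℝ) (j0 - 1) J
  have h3 : (2 : ℝ) / (((j0 - 1 : ℕ) : ℝ) + 1) ≤ 2 := by
    rw [div_le_iff₀ (by positivity)]
    have : (0 : ℝ) ≤ ((j0 - 1 : ℕ) : ℝ) := by positivity
    linarith
  calc _ = ∑ i ∈ Ioo (j0 - 1) J, ((i : ℝ) ^ 2)⁻¹ := sum_congr rfl fun j _ => by rw [one_div]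
    _ ≤ _ := h2.trans h3

/-- **The bound for a character outside of the exceptional set.** -/
theorem det {i : ℕ} {S : Finset (HeightOneSpectrum (𝓞 K))}
    {α β : HeightOneSpectrum (𝓞 K) → Fin N → ℂ} {f : ℕ} {χ : DirichletCharacter ℂ f}
    (hα : ∀ v ∉ S, ∀ j, ‖α v j‖ ≤ (Ideal.absNorm v.asIdeal : ℝ) ^ ((i : ℝ) / 2))
    (h : IsTwist i S α β χ) (hf : f ≠ 0) {B : ℝ} (hB : B = N * Module.finrank ℚ K)
    {j0 J M T : ℕ} (hj0 : 1 ≤ j0) (hJ : j0 ≤ J) (hM : 0 < M) (hM4 : 4 * B * (J : ℝ) ^ 3 ≤ M)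
    (hE : ∀ j ∈ Ico j0 J, ∀ g ∈ grid M T, ‖Z (aa i S α) j χ (gp M g)‖ ≤ 1 / (2 * (j : ℝ) ^ 2))
    {ε τ : ℝ} (hε0 : 0 < ε) (hε1 : ε ≤ 1) (hτ : |τ| ≤ T) :
    |∑ p ∈ (Icc 1 (2 ^ J)).filter Nat.Prime, ext (G β i τ) p * (p : ℝ) ^ (-(1 + ε))| ≤
      N * ∑ p ∈ (Icc 1 (2 ^ j0)).filter Nat.Prime, RR K p / p + 2 +
        (bad S f).card * (2 * B / 2 ^ j0) := by
  classical
  have hB0 : 0 ≤ B := by rw [hB]; positivity
  have ha := aa_le (i := i) hα
  rw [← hB] at ha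
  -- splitting
  have hsplit : (Icc 1 (2 ^ J)).filter Nat.Prime =
      (Icc 1 (2 ^ j0)).filter Nat.Prime ∪ (Ioc (2 ^ j0) (2 ^ J)).filter Nat.Prime := by
    rw [← filter_union]
    congr 1
    ext p
    rw [mem_union, mem_Icc, mem_Icc, mem_Ioc]
    have h1 : 1 ≤ 2 ^ j0 := Nat.one_le_two_pow
    have h2 : 2 ^ j0 ≤ 2 ^ J := Nat.pow_le_pow_right (by norm_num) hJ
    omega
  have hdisj : Disjoint ((Icc 1 (2 ^ j0)).filter Nat.Prime) ((Ioc (2 ^ j0) (2 ^ J)).filter Nat.Prime) := by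
    rw [disjoint_left]
    intro p hp hp'
    rw [mem_filter, mem_Icc] at hp
    rw [mem_filter, mem_Ioc] at hp'
    omega
  rw [hsplit, sum_union hdisj]
  -- the first part
  have hpart1 : |∑ p ∈ (Icc 1 (2 ^ j0)).filter Nat.Prime, ext (G β i τ) p * (p : ℝ) ^ (-(1 + ε))| ≤
      N * ∑ p ∈ (Icc 1 (2 ^ j0)).filter Nat.Prime, RR K p / p := by
    refine (abs_sum_le_sum_abs _ _).trans ?_
    rw [mul_sum]
    refine sum_le_sum fun p hp => ?_
    rw [mem_filter] at hp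
    have hp0 : (0 : ℝ) < p := by exact_mod_cast hp.2.pos
    have hp1 : (1 : ℝ) ≤ p := by exact_mod_cast hp.2.one_lt.le
    rw [abs_mul, abs_of_nonneg (a := (p : ℝ) ^ (-(1 + ε))) (by positivity)]
    have h1 : |ext (G β i τ) p| ≤ N * RR K p := by
      unfold RR ext
      rw [dif_pos hp.2, dif_pos hp.2]
      exact G_le h.bound τ _
    have h2 : (p : ℝ) ^ (-(1 + ε)) ≤ 1 / p := by
      calc (p : ℝ) ^ (-(1 + ε)) ≤ (p : ℝ) ^ (-1 : ℝ) :=
            Real.rpow_le_rpow_of_exponent_le hp1 (by linarith)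
        _ = 1 / p := by rw [Real.rpow_neg_one, one_div]
    have h3 := RR_nonneg K p
    calc |ext (G β i τ) p| * (p : ℝ) ^ (-(1 + ε)) ≤ (N * RR K p) * (1 / p) := by gcongr
      _ = _ := by ring
  -- the blocks
  set u : ℂ := (ε : ℂ) + τ * Complex.I with hu
  have hure : 0 ≤ u.re := by rw [hu]; simp; exact hε0.le
  have hpart2 : |∑ p ∈ (Ioc (2 ^ j0) (2 ^ J)).filter Nat.Prime, ext (G β i τ) p * (p : ℝ) ^ (-(1 + ε))| ≤
      2 + (bad S f).card * (2 * B / 2 ^ j0) := by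
    have e1 : ∀ p ∈ (Ioc (2 ^ j0) (2 ^ J)).filter Nat.Prime,
        |ext (G β i τ) p * (p : ℝ) ^ (-(1 + ε)) -
          (aa i S α p * (p : ℂ) ^ (-(1 + u)) * χ (p : ZMod f)).re| ≤
          if p ∈ bad S f then 2 * B / 2 ^ j0 else 0 := by
      intro p hp
      rw [mem_filter, mem_Ioc] at hp
      split_ifs with hb
      · have hp0 : (0 : ℝ) < p := by exact_mod_cast hp.2.pos
        have hp1 : (1 : ℝ) ≤ p := by exact_mod_cast hp.2.one_lt.le
        have h2p : (2 : ℝ) ^ j0 ≤ p := by exact_mod_cast hp.1.1.le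
        have h2 : (p : ℝ) ^ (-(1 + ε)) ≤ 1 / 2 ^ j0 := by
          calc (p : ℝ) ^ (-(1 + ε)) ≤ (p : ℝ) ^ (-1 : ℝ) :=
                Real.rpow_le_rpow_of_exponent_le hp1 (by linarith)
            _ = 1 / p := by rw [Real.rpow_neg_one, one_div]
            _ ≤ _ := by gcongr
        have h1 : |ext (G β i τ) p| ≤ B := by
          have h5 := G_le h.bound τ ⟨p, hp.2⟩
          have h6 : (R K ⟨p, hp.2⟩ : ℝ) ≤ Module.finrank ℚ K := by exact_mod_cast R_le _
          unfold ext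
          rw [dif_pos hp.2, hB]
          exact h5.trans (by gcongr)
        have h3 : |ext (G β i τ) p * (p : ℝ) ^ (-(1 + ε))| ≤ B * (1 / 2 ^ j0) := by
          rw [abs_mul, abs_of_nonneg (a := (p : ℝ) ^ (-(1 + ε))) (by positivity)]
          gcongr
        have h4 : |(aa i S α p * (p : ℂ) ^ (-(1 + u)) * χ (p : ZMod f)).re| ≤ B * (1 / 2 ^ j0) := by
          refine (Complex.abs_re_le_norm _).trans ?_
          rw [norm_mul, norm_mul, norm_cpow hp.2.pos]
          have h5 := χ.norm_le_one (p : ZMod f)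
          have h6 : u.re = ε := by rw [hu]; simp
          rw [h6]
          calc ‖aa i S α p‖ * (p : ℝ) ^ (-(1 + ε)) * ‖χ (p : ZMod f)‖ ≤ B * (1 / 2 ^ j0) * 1 := by
                have := ha p
                gcongr
            _ = _ := by ring
        refine (abs_sub _ _).trans ?_
        calc _ ≤ B * (1 / 2 ^ j0) + B * (1 / 2 ^ j0) := add_le_add h3 h4
          _ = _ := by ring
      · rw [term_eq h ε τ hp.2 hb hf, ← hu, sub_self, abs_zero]
    have e2 : |∑ p ∈ (Ioc (2 ^ j0) (2 ^ J)).filter Nat.Prime, ext (G β i τ) p * (p : ℝ) ^ (-(1 + ε)) -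
        (∑ p ∈ (Ioc (2 ^ j0) (2 ^ J)).filter Nat.Prime,
          (aa i S α p * (p : ℂ) ^ (-(1 + u)) * χ (p : ZMod f))).re| ≤
          (bad S f).card * (2 * B / 2 ^ j0) := by
      rw [Complex.re_sum, ← sum_sub_distrib]
      refine (abs_sum_le_sum_abs _ _).trans ((sum_le_sum e1).trans ?_)
      rw [← sum_filter, sum_const, nsmul_eq_mul]
      gcongr
      intro p hp
      exact (mem_filter.mp hp).2
    have e3 : ‖∑ p ∈ (Ioc (2 ^ j0) (2 ^ J)).filter Nat.Prime,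
        (aa i S α p * (p : ℂ) ^ (-(1 + u)) * χ (p : ZMod f))‖ ≤ 2 := by
      rw [blocks _ j0 J hJ]
      refine (norm_sum_le _ _).trans ?_
      have h5 : ∀ j ∈ Ico j0 J, ‖∑ p ∈ blk j, (aa i S α p * (p : ℂ) ^ (-(1 + u)) * χ (p : ZMod f))‖ ≤
          1 / (j : ℝ) ^ 2 := by
        intro j hj
        change ‖Z (aa i S α) j χ u‖ ≤ _
        obtain ⟨g, hg, hg2⟩ := exists_grid hM hε0.le hε1 hτ
        rw [← hu] at hg2
        have h6 := hE j hj g hg
        have h7 := Z_lip ha j χ (gp_re M g) hure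
        have hj1 : 1 ≤ j := hj0.trans (mem_Ico.mp hj).1
        have hj1' : (1 : ℝ) ≤ j := by exact_mod_cast hj1
        have hjJ : (j : ℝ) + 1 ≤ J := by exact_mod_cast (mem_Ico.mp hj).2
        have hM0 : (0 : ℝ) < M := by exact_mod_cast hM
        have h8 : B * ((j : ℝ) + 1) * ‖u - gp M g‖ ≤ 1 / (2 * (j : ℝ) ^ 2) := by
          calc B * ((j : ℝ) + 1) * ‖u - gp M g‖ ≤ B * ((j : ℝ) + 1) * (2 / M) := by gcongr
            _ ≤ 1 / (2 * (j : ℝ) ^ 2) := by
                rw [mul_div_assoc', div_le_div_iff₀ hM0 (by positivity)]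
                have h9 : ((j : ℝ) + 1) * (j : ℝ) ^ 2 ≤ (J : ℝ) ^ 3 := by
                  calc ((j : ℝ) + 1) * (j : ℝ) ^ 2 ≤ (J : ℝ) * (J : ℝ) ^ 2 := by
                        gcongr
                        exact (mem_Ico.mp hj).2.le
                    _ = _ := by ring
                have h10 : 4 * B * (((j : ℝ) + 1) * (j : ℝ) ^ 2) ≤ 4 * B * (J : ℝ) ^ 3 := by gcongr
                nlinarith
        have h9 : ‖Z (aa i S α) j χ u‖ ≤ ‖Z (aa i S α) j χ (gp M g)‖ +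
            ‖Z (aa i S α) j χ u - Z (aa i S α) j χ (gp M g)‖ := by
          have := norm_add_le (Z (aa i S α) j χ (gp M g))
            (Z (aa i S α) j χ u - Z (aa i S α) j χ (gp M g))
          rwa [add_sub_cancel] at this
        have h10 : 1 / (2 * (j : ℝ) ^ 2) + 1 / (2 * (j : ℝ) ^ 2) = 1 / (j : ℝ) ^ 2 := by
          field_simp
          norm_num
        linarith
      exact (sum_le_sum h5).trans (sum_inv_sq j0 J hj0)
    have e4 := (Complex.abs_re_le_norm (∑ p ∈ (Ioc (2 ^ j0) (2 ^ J)).filter Nat.Prime,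
        (aa i S α p * (p : ℂ) ^ (-(1 + u)) * χ (p : ZMod f)))).trans e3
    have e5 := abs_add_le (∑ p ∈ (Ioc (2 ^ j0) (2 ^ J)).filter Nat.Prime,
      ext (G β i τ) p * (p : ℝ) ^ (-(1 + ε)) - (∑ p ∈ (Ioc (2 ^ j0) (2 ^ J)).filter Nat.Prime,
          (aa i S α p * (p : ℂ) ^ (-(1 + u)) * χ (p : ZMod f))).re)
      ((∑ p ∈ (Ioc (2 ^ j0) (2 ^ J)).filter Nat.Prime,
          (aa i S α p * (p : ℂ) ^ (-(1 + u)) * χ (p : ZMod f))).re)
    rw [sub_add_cancel] at e5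
    linarith
  refine (abs_add_le _ _).trans ?_
  linarith

end Pool.Agent.H11.TC
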