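import Mathlib
import Pool.Agent.H11.TC.Det

/-!
# L-functions of varieties twisted by almost all Dirichlet characters: the main theorem
-/

set_option autoImplicit false

namespace Pool.Agent.H11.TC

open NumberField IsDedekindDomain Finset Filter Topology
open Pool.Agent.H921R2.TatePole (CK C0 R_le)

theorem chars_mono {Q Q' : ℕ} (h : Q ≤ Q') : chars Q ⊆ chars Q' := by
  classical
  unfold chars
  intro x hx
  rw [mem_sigma] at hx ⊢
  rw [mem_Icc] at hx ⊢
  exact ⟨⟨hx.1.1, hx.1.2.trans h⟩, hx.2⟩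

theorem mem_chars {Q f : ℕ} {χ : DirichletCharacter ℂ f} (h1 : 1 ≤ f) (h2 : f ≤ Q)
    (h3 : χ.IsPrimitive) : (⟨f, χ⟩ : Σ f : ℕ, DirichletCharacter ℂ f) ∈ chars Q := by
  classical
  unfold chars
  rw [mem_sigma, mem_Icc, mem_filter]
  exact ⟨⟨h1, h2⟩, mem_univ _, h3⟩

/-- the conditions on `Q` -/
theorem large (A D κ : ℝ) (hκ : 0 < κ) (hA : 0 < A) : ∃ Q1 : ℕ, ∀ Q : ℕ, Q1 ≤ Q →
    1 ≤ Real.log (Real.log Q) ∧ 162 * D ≤ Real.log Q ^ 2 ∧ (A + 1) * Real.log Q ≤ (Q : ℝ) ^ κ := by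
  have t1 : Tendsto (fun Q : ℕ => Real.log Q) atTop atTop :=
    Real.tendsto_log_atTop.comp tendsto_natCast_atTop_atTop
  have t2 : Tendsto (fun Q : ℕ => Real.log (Real.log Q)) atTop atTop := Real.tendsto_log_atTop.comp t1
  have t3 : Tendsto (fun Q : ℕ => Real.log Q ^ 2) atTop atTop :=
    (tendsto_pow_atTop (by norm_num)).comp t1
  have h4 := (isLittleO_log_rpow_atTop hκ).bound (c := 1 / (A + 1)) (by positivity)
  have h5 := tendsto_natCast_atTop_atTop (R := ℝ) |>.eventually h4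
  have h6 : ∀ᶠ Q : ℕ in atTop, 1 ≤ Real.log (Real.log Q) ∧ 162 * D ≤ Real.log Q ^ 2 ∧
      (A + 1) * Real.log Q ≤ (Q : ℝ) ^ κ := by
    filter_upwards [t2.eventually_ge_atTop 1, t3.eventually_ge_atTop (162 * D), h5] with Q a1 a2 a3
    refine ⟨a1, a2, ?_⟩
    have hQ : (0 : ℝ) ≤ (Q : ℝ) ^ κ := by positivity
    rw [Real.norm_eq_abs, Real.norm_of_nonneg hQ] at a3
    have a4 := (le_abs_self _).trans a3
    calc (A + 1) * Real.log Q ≤ (A + 1) * (1 / (A + 1) * (Q : ℝ) ^ κ) := by gcongr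
      _ = _ := by field_simp
  obtain ⟨Q1, h⟩ := eventually_atTop.mp h6
  exact ⟨Q1, h⟩

theorem size_bound {Q : ℝ} (hQ : 1 ≤ Q) {η B D : ℝ} (hη : 0 < η) (hB : 0 ≤ B) (hD : 0 ≤ D) {J M T : ℕ}
    (hJ : (J : ℝ) ≤ 2 * Q ^ (η / 24)) (hM : (M : ℝ) ≤ 4 * B * (J : ℝ) ^ 3 + 2)
    (hT : (T : ℝ) ≤ 2 * Q ^ (η / 48)) :
    (J : ℝ) * (((M : ℝ) + 1) * (2 * T * M + 1)) * (12 * (Q ^ (η / 2) + 1 + D * (J : ℝ) ^ 4)) ≤
      2 * (32 * B + 3) * (128 * B + 9) * (12 * (2 + 16 * D)) * Q ^ η := by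
  set X : ℝ := Q ^ (η / 24) with hX
  set Y : ℝ := Q ^ (η / 48) with hY
  have hX1 : 1 ≤ X := Real.one_le_rpow hQ (by positivity)
  have hY1 : 1 ≤ Y := Real.one_le_rpow hQ (by positivity)
  have hX0 : 0 < X := by linarith
  have hX3 : 1 ≤ X ^ 3 := one_le_pow₀ hX1
  have hJ3 : (J : ℝ) ^ 3 ≤ 8 * X ^ 3 := by
    calc (J : ℝ) ^ 3 ≤ (2 * X) ^ 3 := by gcongr
      _ = _ := by ring
  have hM1 : (M : ℝ) ≤ (32 * B + 2) * X ^ 3 := by
    have h1 : 4 * B * (J : ℝ) ^ 3 ≤ 4 * B * (8 * X ^ 3) := by gcongr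
    nlinarith
  have hM2 : (M : ℝ) + 1 ≤ (32 * B + 3) * X ^ 3 := by nlinarith
  have hM3 : 2 * (T : ℝ) * M + 1 ≤ (128 * B + 9) * (Y * X ^ 3) := by
    have h1 : 2 * (T : ℝ) * M ≤ 2 * (2 * Y) * ((32 * B + 2) * X ^ 3) := by gcongr
    have h2 : 1 ≤ Y * X ^ 3 := one_le_mul_of_one_le_of_one_le hY1 hX3
    nlinarith
  have hX4 : X ^ 4 ≤ Q ^ (η / 2) := by
    rw [hX, ← Real.rpow_natCast, ← Real.rpow_mul (by linarith)]
    apply Real.rpow_le_rpow_of_exponent_le hQ
    push_cast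
    linarith
  have hJ4 : (J : ℝ) ^ 4 ≤ 16 * Q ^ (η / 2) := by
    calc (J : ℝ) ^ 4 ≤ (2 * X) ^ 4 := by gcongr
      _ = 16 * X ^ 4 := by ring
      _ ≤ _ := by gcongr
  have hQ2 : 1 ≤ Q ^ (η / 2) := Real.one_le_rpow hQ (by positivity)
  have hW : 12 * (Q ^ (η / 2) + 1 + D * (J : ℝ) ^ 4) ≤ 12 * (2 + 16 * D) * Q ^ (η / 2) := by
    have h1 : D * (J : ℝ) ^ 4 ≤ D * (16 * Q ^ (η / 2)) := by gcongr
    nlinarith
  have hfin : X * X ^ 3 * (Y * X ^ 3) * Q ^ (η / 2) ≤ Q ^ η := by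
    have e1 : X * X ^ 3 * (Y * X ^ 3) = Q ^ (7 * (η / 24) + η / 48) := by
      rw [Real.rpow_add (by linarith), show X * X ^ 3 * (Y * X ^ 3) = X ^ 7 * Y by ring, hX,
        ← Real.rpow_natCast, ← Real.rpow_mul (by linarith)]
      push_cast
      congr 2
      ring
    rw [e1, ← Real.rpow_add (by linarith)]
    apply Real.rpow_le_rpow_of_exponent_le hQ
    linarith
  calc (J : ℝ) * (((M : ℝ) + 1) * (2 * T * M + 1)) * (12 * (Q ^ (η / 2) + 1 + D * (J : ℝ) ^ 4)) ≤
      (2 * X) * (((32 * B + 3) * X ^ 3) * ((128 * B + 9) * (Y * X ^ 3))) *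
        (12 * (2 + 16 * D) * Q ^ (η / 2)) := by gcongr
    _ = 2 * (32 * B + 3) * (128 * B + 9) * (12 * (2 + 16 * D)) *
        (X * X ^ 3 * (Y * X ^ 3) * Q ^ (η / 2)) := by ring
    _ ≤ _ := by gcongr

/-- **The main theorem.** -/
theorem main (K : Type) [Field K] [NumberField K] (i N : ℕ) (η : ℝ) (hη : 0 < η) (hη1 : η ≤ 1) :
    ∃ C : ℝ, 0 < C ∧ ∀ Q : ℕ, 16 ≤ Q → ∀ S : Finset (HeightOneSpectrum (𝓞 K)),
      (S.card : ℝ) ≤ Real.log Q → ∀ α : HeightOneSpectrum (𝓞 K) → Fin N → ℂ,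
      (∀ v ∉ S, ∀ j, ‖α v j‖ ≤ (Ideal.absNorm v.asIdeal : ℝ) ^ ((i : ℝ) / 2)) →
      ∃ E : Finset (Σ f : ℕ, DirichletCharacter ℂ f), (E.card : ℝ) ≤ C * (Q : ℝ) ^ η ∧
        ∀ (f : ℕ) (χ : DirichletCharacter ℂ f), 1 ≤ f → f ≤ Q → χ.IsPrimitive →
          (⟨f, χ⟩ : Σ f : ℕ, DirichletCharacter ℂ f) ∉ E →
          ∀ β : HeightOneSpectrum (𝓞 K) → Fin N → ℂ, IsTwist i S α β χ →
          ∀ ε τ : ℝ, (Q : ℝ) ^ (-(η / 48)) ≤ ε → ε ≤ 1 → |τ| ≤ (Q : ℝ) ^ (η / 48) →
            LFun β ((i : ℂ) / 2 + 1 + ε + τ * Complex.I) ≠ 0 ∧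
            |Real.log ‖LFun β ((i : ℂ) / 2 + 1 + ε + τ * Complex.I)‖| ≤
              N * Real.log (Real.log (Real.log Q)) + C := by
  classical
  obtain ⟨CM, hCM0, hCM⟩ := mertens_K K
  set B : ℝ := (N : ℝ) * (Module.finrank ℚ K : ℝ) with hB
  have hB0 : 0 ≤ B := by positivity
  set D : ℝ := 8 * B ^ 2 with hD
  have hD0 : 0 ≤ D := by positivity
  set A : ℝ := 72 / η with hA
  have hA72 : 72 ≤ A := by
    rw [hA, le_div_iff₀ hη]
    linarith
  have hA0 : 0 < A := by linarith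
  obtain ⟨Q1, hQ1⟩ := large A D (η / 24) (by positivity) hA0
  have hCK : 0 ≤ CK K := Pool.Agent.H921R2.TatePole.CK_nonneg
  have hC0 := Pool.Agent.H921R2.TatePole.C0_nonneg
  have hlA : 0 ≤ Real.log (A + 1) := Real.log_nonneg (by linarith)
  set CE : ℝ := N * CK K + N * (Module.finrank ℚ K : ℝ) * C0 with hCE
  have hCE0 : 0 ≤ CE := by positivity
  set C : ℝ := CE + 24 * B + (N * (Real.log (A + 1) + CM) + 2 + 6 * B) +
    2 * (32 * B + 3) * (128 * B + 9) * (12 * (2 + 16 * D)) + (chars Q1).card + 1 with hC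
  have hC1 : 2 * (32 * B + 3) * (128 * B + 9) * (12 * (2 + 16 * D)) ≤ C := by
    have : 0 ≤ CE + 24 * B + (N * (Real.log (A + 1) + CM) + 2 + 6 * B) := by positivity
    have : (0 : ℝ) ≤ (chars Q1).card := by positivity
    linarith
  have hC2 : ((chars Q1).card : ℝ) ≤ C := by
    have : 0 ≤ CE + 24 * B + (N * (Real.log (A + 1) + CM) + 2 + 6 * B) +
      2 * (32 * B + 3) * (128 * B + 9) * (12 * (2 + 16 * D)) := by positivity
    linarith
  have hC3 : CE + 24 * B + (N * (Real.log (A + 1) + CM) + 2 + 6 * B) ≤ C := by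
    have : 0 ≤ 2 * (32 * B + 3) * (128 * B + 9) * (12 * (2 + 16 * D)) := by positivity
    have : (0 : ℝ) ≤ (chars Q1).card := by positivity
    linarith
  refine ⟨C, by positivity, fun Q hQ S hS α hα => ?_⟩
  have hQr : (1 : ℝ) ≤ Q := by exact_mod_cast (by omega : 1 ≤ Q)
  have hQ0 : (0 : ℝ) < Q := by linarith
  have hQη : 1 ≤ (Q : ℝ) ^ η := Real.one_le_rpow hQr hη.le
  by_cases hlarge : Q1 ≤ Q
  · obtain ⟨g1, g2, g3⟩ := hQ1 Q hlarge
    set L := Real.log Q with hL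
    have hL0 : 0 < L := by
      by_contra hneg
      push Not at hneg
      have hL' : 0 ≤ L := Real.log_nonneg hQr
      have : L = 0 := le_antisymm hneg hL'
      rw [this, Real.log_zero] at g1
      linarith
    have hL1 : 1 ≤ L := by
      have h1 := Real.add_one_le_exp (Real.log L)
      rw [Real.exp_log hL0] at h1
      linarith
    set j0 : ℕ := ⌈A * Real.log L⌉₊ with hj0
    set J : ℕ := ⌈(Q : ℝ) ^ (η / 24)⌉₊ with hJ
    set M : ℕ := ⌈4 * B * (J : ℝ) ^ 3⌉₊ + 1 with hM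
    set T : ℕ := ⌈(Q : ℝ) ^ (η / 48)⌉₊ with hT
    have hj0A : A * Real.log L ≤ j0 := Nat.le_ceil _
    have hj0A2 : (j0 : ℝ) ≤ (A + 1) * Real.log L := by
      have := (Nat.ceil_lt_add_one (a := A * Real.log L) (by positivity)).le
      rw [← hj0] at this
      linarith
    have hj02 : (72 : ℝ) ≤ j0 := by nlinarith
    have hj01 : 1 ≤ j0 := by
      have : (1 : ℝ) ≤ j0 := by linarith
      exact_mod_cast this
    have hLL : Real.log L ≤ L := (Real.log_le_sub_one_of_pos hL0).trans (by linarith)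
    have hj0J : j0 ≤ J := by
      rw [hj0]
      apply Nat.ceil_le_ceil
      calc A * Real.log L ≤ A * L := by gcongr
        _ ≤ (A + 1) * L := by nlinarith
        _ ≤ _ := g3
    have h2j0 : L ≤ 2 ^ j0 := by
      have h1 : Real.log L ≤ Real.log ((2 : ℝ) ^ j0) := by
        rw [Real.log_pow]
        have := Real.log_two_gt_d9
        nlinarith
      exact (Real.log_le_log_iff hL0 (by positivity)).mp h1
    have hX1 : 1 ≤ (Q : ℝ) ^ (η / 24) := Real.one_le_rpow hQr (by positivity)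
    have hY1 : 1 ≤ (Q : ℝ) ^ (η / 48) := Real.one_le_rpow hQr (by positivity)
    have hJ2 : (J : ℝ) ≤ 2 * (Q : ℝ) ^ (η / 24) := by
      have := (Nat.ceil_lt_add_one (a := (Q : ℝ) ^ (η / 24)) (by positivity)).le
      rw [← hJ] at this
      linarith
    have hT2 : (T : ℝ) ≤ 2 * (Q : ℝ) ^ (η / 48) := by
      have := (Nat.ceil_lt_add_one (a := (Q : ℝ) ^ (η / 48)) (by positivity)).le
      rw [← hT] at this
      linarith
    have hM1 : 4 * B * (J : ℝ) ^ 3 ≤ M := by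
      rw [hM]
      push_cast
      have := Nat.le_ceil (4 * B * (J : ℝ) ^ 3)
      linarith
    have hM2 : (M : ℝ) ≤ 4 * B * (J : ℝ) ^ 3 + 2 := by
      rw [hM]
      push_cast
      have := (Nat.ceil_lt_add_one (a := 4 * B * (J : ℝ) ^ 3) (by positivity)).le
      linarith
    have hM0 : 0 < M := Nat.succ_pos _
    have ha := aa_le (i := i) hα
    rw [← hB] at ha
    refine ⟨Exc Q j0 J M T (aa i S α), ?_, ?_⟩
    · have hW : ∀ j ∈ Ico j0 J, 12 * (8 * B ^ 2 * kk Q j * (j : ℝ) ^ 4) ^ kk Q j ≤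
          12 * ((Q : ℝ) ^ (η / 2) + 1 + D * (J : ℝ) ^ 4) := by
        intro j hj
        rw [mem_Ico] at hj
        have h1 := pow_bound hD0 hA0 Q j (hj01.trans hj.1) (by omega) hL1 g2
          (hj0A.trans (by exact_mod_cast hj.1))
        rw [← hD]
        have h2 : 36 / A = η / 2 := by
          rw [hA]
          field_simp
          norm_num
        rw [h2] at h1
        have h3 : (j : ℝ) ^ 4 ≤ (J : ℝ) ^ 4 := by
          gcongr
          exact hj.2.le
        have h4 : D * (j : ℝ) ^ 4 ≤ D * (J : ℝ) ^ 4 := by gcongr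
        linarith
      have h1 := card_Exc ha Q j0 J M T hj01 (by positivity) hW
      have h2 := size_bound hQr hη hB0 hD0 hJ2 hM2 hT2
      calc _ ≤ _ := h1
        _ ≤ _ := h2
        _ ≤ C * (Q : ℝ) ^ η := by gcongr
    · intro f χ hf hfQ hχ hx β hβ ε τ hε0 hε1 hτ
      have hεp : 0 < ε := lt_of_lt_of_le (by positivity) hε0
      have hE : ∀ j ∈ Ico j0 J, ∀ g ∈ grid M T, ‖Z (aa i S α) j χ (gp M g)‖ ≤ 1 / (2 * (j : ℝ) ^ 2) := by
        intro j hj g hg
        by_contra hcon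
        push Not at hcon
        apply hx
        unfold Exc
        rw [mem_filter]
        exact ⟨mem_chars hf hfQ hχ, j, hj, g, hg, hcon⟩
      have hτT : |τ| ≤ T := hτ.trans (Nat.le_ceil _)
      have h1 := det hα hβ (by omega) hB hj01 hj0J hM0 hM1 hE hεp hε1 hτT
      have h2 := log_LFun i N hβ.bound ε τ hεp
      refine ⟨h2.1, ?_⟩
      have hGB : ∀ p : Nat.Primes, |G β i τ p| ≤ B := by
        intro p
        refine (G_le hβ.bound τ p).trans ?_
        rw [hB]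
        have : (Pool.Agent.H921R2.TatePole.R K p : ℝ) ≤ Module.finrank ℚ K := by exact_mod_cast R_le p
        gcongr
      have hJ1 : 1 ≤ J := hj01.trans hj0J
      have h3 := cut hB0 hGB hεp hε1 (2 ^ J) (by
        calc 2 = 2 ^ 1 := rfl
          _ ≤ 2 ^ J := Nat.pow_le_pow_right (by norm_num) hJ1)
      have h4 : B * (16 / (ε * Real.log ((2 ^ J : ℕ) : ℝ))) ≤ 24 * B := by
        have e1 : Real.log ((2 ^ J : ℕ) : ℝ) = J * Real.log 2 := by
          push_cast
          rw [Real.log_pow]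
        rw [e1]
        have e2 : 1 ≤ ε * J := by
          have h5 : (Q : ℝ) ^ (-(η / 48)) * (Q : ℝ) ^ (η / 24) ≤ ε * J := by
            have := Nat.le_ceil ((Q : ℝ) ^ (η / 24))
            gcongr
          rw [← Real.rpow_add hQ0] at h5
          refine le_trans ?_ h5
          apply Real.one_le_rpow hQr
          linarith
        have e3 := Real.log_two_gt_d9
        have e4 : 2 / 3 ≤ ε * (J * Real.log 2) := by nlinarith
        have e5 : 16 / (ε * (J * Real.log 2)) ≤ 24 := by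
          rw [div_le_iff₀ (by linarith)]
          linarith
        calc B * (16 / (ε * (J * Real.log 2))) ≤ B * 24 := by gcongr
          _ = _ := by ring
      have h5 : ∑ p ∈ (Icc 1 (2 ^ j0)).filter Nat.Prime, RR K p / p ≤
          Real.log (Real.log L) + (Real.log (A + 1) + CM) := by
        have h6 := hCM (2 ^ j0) (by
          calc 3 ≤ 2 ^ 2 := by norm_num
            _ ≤ 2 ^ j0 := Nat.pow_le_pow_right (by norm_num) (by
                have : (2 : ℝ) ≤ j0 := by linarith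
                exact_mod_cast this))
        have h7 : Real.log (Real.log ((2 ^ j0 : ℕ) : ℝ)) ≤ Real.log (A + 1) + Real.log (Real.log L) := by
          rw [← Real.log_mul (by linarith) (by linarith)]
          have e1 : Real.log ((2 ^ j0 : ℕ) : ℝ) = j0 * Real.log 2 := by
            push_cast
            rw [Real.log_pow]
          rw [e1]
          have e2 := Real.log_two_gt_d9
          have e3 := Real.log_two_lt_d9
          apply Real.log_le_log (by nlinarith)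
          nlinarith
        linarith
      have h6 : ((bad S f).card : ℝ) * (2 * B / 2 ^ j0) ≤ 6 * B := by
        have h7 := card_bad S hf hfQ hS
        calc ((bad S f).card : ℝ) * (2 * B / 2 ^ j0) ≤ (3 * L) * (2 * B / 2 ^ j0) := by gcongr
          _ = 6 * B * (L / 2 ^ j0) := by ring
          _ ≤ 6 * B * 1 := by
              gcongr
              rw [div_le_one (by positivity)]
              exact h2j0
          _ = _ := by ring
      have h7 : (N : ℝ) * ∑ p ∈ (Icc 1 (2 ^ j0)).filter Nat.Prime, RR K p / p ≤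
          N * Real.log (Real.log L) + N * (Real.log (A + 1) + CM) := by
        rw [← mul_add]
        gcongr
      set LL := Real.log ‖LFun β ((i : ℂ) / 2 + 1 + ε + τ * Complex.I)‖ with hLL'
      set S1 := ∑' p : Nat.Primes, G β i τ p * Pool.Agent.H921R2.TatePole.w (1 + ε) p with hS1
      set S2 := ∑ p ∈ (Icc 1 (2 ^ J)).filter Nat.Prime, ext (G β i τ) p * (p : ℝ) ^ (-(1 + ε)) with hS2
      have a1 : |LL| ≤ |LL - S1| + |S1 - S2| + |S2| := by
        have b1 := abs_add_le (LL - S1) (S1 - S2)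
        have b2 := abs_add_le ((LL - S1) + (S1 - S2)) S2
        rw [show (LL - S1) + (S1 - S2) + S2 = LL by ring] at b2
        linarith
      have a2 := h2.2
      rw [← hCE] at a2
      linarith
  · push Not at hlarge
    refine ⟨chars Q, ?_, ?_⟩
    · have h1 : ((chars Q).card : ℝ) ≤ (chars Q1).card := by
        exact_mod_cast card_le_card (chars_mono hlarge.le)
      calc ((chars Q).card : ℝ) ≤ (chars Q1).card := h1
        _ ≤ C := hC2
        _ = C * 1 := by ring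
        _ ≤ C * (Q : ℝ) ^ η := by
            gcongr
    · intro f χ hf hfQ hχ hx
      exact absurd (mem_chars hf hfQ hχ) hx

end Pool.Agent.H11.TC
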